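import Mathlib
import Pool.Agent.H374R2.W.Glue

/-!
Two logarithms over the reals: a bound for a prime `q` with `|U ^ q - A ^ x| ≤ A ^ ((1 - κ) x)`.
After `Pool.Agent.H374R2.W.QM`, where `κ = 1 / 2`.
-/

set_option autoImplicit false

namespace Pool.Agent.K1H94.Q

open Pool.Agent.H374R2.W.QM (ceil_facts abs_log_le)

theorem real_logs {κ : ℝ} (hκ0 : 0 < κ) (hκ1 : κ ≤ 1) : ∃ C : ℕ, 1 ≤ C ∧ ∀ A U q x : ℕ, 2 ≤ A →
    2 ≤ U → q.Prime → ¬ q ∣ x → 0 < x →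
    |(U : ℝ) ^ q - (A : ℝ) ^ x| ≤ (A : ℝ) ^ ((1 - κ) * (x : ℝ)) →
    q ≤ C * (Nat.log 2 A + 1) * (Nat.log 2 q + 1) ^ 2 := by
  obtain ⟨C, hC⟩ := exists_nat_ge (10 ^ 9 / κ)
  have hCκ : 10 ^ 9 ≤ C * κ := by rwa [div_le_iff₀ hκ0] at hC
  have hC9 : (10 : ℝ) ^ 9 ≤ C := by
    refine le_trans ?_ hC
    rw [le_div_iff₀ hκ0]
    exact mul_le_of_le_one_right (by norm_num) hκ1
  have hC9' : 10 ^ 9 ≤ C := by exact_mod_cast hC9
  refine ⟨C, by omega, ?_⟩
  intro A U q x hA hU hq hqx hx h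
  by_contra hcon
  push Not at hcon
  obtain ⟨hY1, hY2, hY3, hY4⟩ := ceil_facts hA
  obtain ⟨hZ1, hZ2, hZ3, -⟩ := ceil_facts hU
  set Y := ⌈Real.log A⌉₊ with hYdef
  set Z := ⌈Real.log U⌉₊ with hZdef
  set L := ⌈8 * (3 + Real.log q)⌉₊ with hLdef
  set lq := Nat.log 2 q + 1 with hlq
  have hlq1 : 1 ≤ lq := by omega
  have hq2 : 2 ≤ q := hq.two_le
  have hl2 := Real.log_two_gt_d9
  have hl2' := Real.log_two_lt_d9
  have hYq : C * Y * lq ^ 2 < q :=
    lt_of_le_of_lt (Nat.mul_le_mul_right _ (Nat.mul_le_mul_left _ hY4)) hcon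
  have hqbig : C < q := by
    refine lt_of_le_of_lt ?_ hYq
    calc C = C * 1 * 1 ^ 2 := by ring
      _ ≤ C * Y * lq ^ 2 := by gcongr
  have hlogq : Real.log q ≤ lq := by
    have h1 : q < 2 ^ lq := Nat.lt_pow_succ_log_self (by norm_num) q
    have h3 : Real.log q ≤ Real.log ((2 : ℝ) ^ lq) :=
      Real.log_le_log (by positivity) (by exact_mod_cast h1.le)
    rw [Real.log_pow] at h3
    have h5 : (0 : ℝ) ≤ (lq : ℝ) := by positivity
    nlinarith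
  have hlogq0 : 0 ≤ Real.log q := Real.log_nonneg (by exact_mod_cast (by omega : 1 ≤ q))
  have hL1 : 8 * (3 + Real.log q) ≤ (L : ℝ) := Nat.le_ceil _
  have hL2 : (L : ℝ) < 8 * (3 + Real.log q) + 1 := Nat.ceil_lt_add_one (by positivity)
  have hlqR : (1 : ℝ) ≤ lq := by exact_mod_cast hlq1
  have hL3 : (L : ℝ) ≤ 33 * lq := by linarith
  have hL4 : 1 ≤ L := by
    have : (1 : ℝ) ≤ L := by linarith
    exact_mod_cast this
  have hL0 : (1 : ℝ) ≤ L := by exact_mod_cast hL4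
  have hYR : (1 : ℝ) ≤ Y := by exact_mod_cast hY1
  have hZR : (1 : ℝ) ≤ Z := by exact_mod_cast hZ1
  have hYqR : C * (Y : ℝ) * (lq : ℝ) ^ 2 < q := by exact_mod_cast hYq
  have hqR : (C : ℝ) < q := by exact_mod_cast hqbig
  have hqκ : 10 ^ 9 ≤ κ * q :=
    (hCκ.trans (mul_le_mul_of_nonneg_right hqR.le hκ0.le)).trans_eq (mul_comm _ _)
  have hA0 : (0 : ℝ) < A := by positivity
  have hA1 : (1 : ℝ) < A := by exact_mod_cast (by omega : 1 < A)
  have hU0 : (0 : ℝ) < U := by positivity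
  have hlA : 0 < Real.log A := by linarith
  have hlU : 0 < Real.log U := by linarith
  have hlU2 : Real.log 2 ≤ Real.log U := Real.log_le_log (by norm_num) (by exact_mod_cast hU)
  have hx1 : (1 : ℝ) ≤ x := by exact_mod_cast hx
  set M := (A : ℝ) ^ x with hM
  have hM1 : 1 ≤ M := one_le_pow₀ hA1.le
  have hM0 : 0 < M := by linarith
  have hlogM : Real.log M = x * Real.log A := by rw [hM, Real.log_pow]
  set P := (A : ℝ) ^ (κ * (x : ℝ)) with hP
  have hP1 : 1 ≤ P := Real.one_le_rpow hA1.le (by positivity)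
  have hP0 : 0 < P := by linarith
  have hlogP : Real.log P = κ * x * Real.log A := by rw [hP, Real.log_rpow hA0]
  have hMP : (A : ℝ) ^ ((1 - κ) * (x : ℝ)) = M / P := by
    rw [hM, hP, eq_div_iff (Real.rpow_pos_of_pos hA0 _).ne', ← Real.rpow_add hA0,
      ← Real.rpow_natCast]
    congr 1
    ring
  rw [hMP] at h
  have hMPle : M / P ≤ M := div_le_self hM0.le hP1
  have habs := abs_le.1 h
  have h1 : (U : ℝ) ^ q ≤ 2 * M := by linarith [habs.2]
  have h2 : (q : ℝ) * Real.log U ≤ Real.log 2 + x * Real.log A := by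
    have := Real.log_le_log (by positivity) h1
    rw [Real.log_pow, Real.log_mul (by norm_num) hM0.ne', hlogM] at this
    linarith
  have e4 : Real.log 4 = 2 * Real.log 2 := by
    rw [show (4 : ℝ) = 2 ^ 2 by norm_num, Real.log_pow]; norm_num
  have hκq : κ * (q * Real.log U) ≥ 10 ^ 9 * Real.log 2 := by
    calc κ * (q * Real.log U) = (κ * q) * Real.log U := by ring
      _ ≥ 10 ^ 9 * Real.log 2 := mul_le_mul hqκ hlU2 (by linarith) (by positivity)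
  have h3 : Real.log 4 ≤ Real.log P := by
    rw [e4, hlogP]
    have k0 := mul_le_mul_of_nonneg_left h2 hκ0.le
    have k1 : κ * Real.log 2 ≤ Real.log 2 := mul_le_of_le_one_left (by linarith) hκ1
    have k2 : κ * (Real.log 2 + x * Real.log A) = κ * Real.log 2 + κ * x * Real.log A := by ring
    have k3 : (3 : ℝ) * Real.log 2 ≤ 10 ^ 9 * Real.log 2 :=
      mul_le_mul_of_nonneg_right (by norm_num) (by linarith)
    rw [k2] at k0
    linarith
  have hP4 : 4 ≤ P := (Real.log_le_log_iff (by norm_num) hP0).1 h3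
  have h4 : |(U : ℝ) ^ q / M - 1| ≤ 1 / P := by
    have e : (U : ℝ) ^ q / M - 1 = ((U : ℝ) ^ q - M) / M := by
      field_simp
    rw [e, abs_div, abs_of_pos hM0, div_le_div_iff₀ hM0 hP0]
    rw [le_div_iff₀ hP0] at h
    linarith
  have h5 : 1 / P ≤ 1 / 4 := one_div_le_one_div_of_le (by norm_num) hP4
  have h6 := abs_log_le (h4.trans h5)
  have h7 : Real.log ((U : ℝ) ^ q / M) = q * Real.log U - x * Real.log A := by
    rw [Real.log_div (by positivity) hM0.ne', Real.log_pow, hlogM]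
  rw [h7] at h6
  have h8 : |(q : ℝ) * Real.log U - x * Real.log A| ≤ 2 / P := by
    refine h6.trans ?_
    calc 2 * |(U : ℝ) ^ q / M - 1| ≤ 2 * (1 / P) := by linarith
      _ = 2 / P := by ring
  have h9 : |(q : ℝ) * Real.log U - x * Real.log A| ≤ 1 := by
    refine h8.trans ?_
    rw [div_le_one hP0]; linarith
  have h10 : (q : ℝ) * Real.log U - 1 ≤ x * Real.log A := by
    have := (abs_le.1 h9).2
    linarith
  have h11 : (q : ℝ) * Z ≤ 3 * (q * Real.log U) := by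
    have := mul_le_mul_of_nonneg_left hZ3 (by linarith : (0 : ℝ) ≤ q)
    linarith
  have hq9 : (10 : ℝ) ^ 9 ≤ q := by linarith
  have h12 : (q : ℝ) * Z ≤ 6 * ((x : ℝ) * Y) := by
    have a1 : (2 : ℝ) ≤ q * Real.log U := by
      calc (2 : ℝ) ≤ 10 ^ 9 * (1 / 2) := by norm_num
        _ ≤ q * Real.log U := mul_le_mul hq9 (by linarith) (by norm_num) (by positivity)
    have a2 : (x : ℝ) * Real.log A ≤ x * Y := mul_le_mul_of_nonneg_left hY2 (by linarith)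
    linarith
  have hCY : 10 ^ 9 * (Y : ℝ) * (lq : ℝ) ^ 2 < κ * q := by
    have a0 : (0 : ℝ) < (Y : ℝ) * (lq : ℝ) ^ 2 := by positivity
    have a1 : κ * (C * (Y : ℝ) * (lq : ℝ) ^ 2) < κ * q := mul_lt_mul_of_pos_left hYqR hκ0
    have a2 : 10 ^ 9 * ((Y : ℝ) * (lq : ℝ) ^ 2) ≤ (C * κ) * ((Y : ℝ) * (lq : ℝ) ^ 2) :=
      mul_le_mul_of_nonneg_right hCκ a0.le
    calc 10 ^ 9 * (Y : ℝ) * (lq : ℝ) ^ 2 = 10 ^ 9 * ((Y : ℝ) * (lq : ℝ) ^ 2) := by ring
      _ ≤ (C * κ) * ((Y : ℝ) * (lq : ℝ) ^ 2) := a2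
      _ = κ * (C * (Y : ℝ) * (lq : ℝ) ^ 2) := by ring
      _ < κ * q := a1
  have hκqq : κ * q ≤ q := mul_le_of_le_one_left (by linarith) hκ1
  have h13 : 870 * (Y : ℝ) * L ≤ q := by
    have a1 : 870 * (Y : ℝ) * L ≤ 870 * (Y : ℝ) * (33 * lq) := by gcongr
    have a2 : 870 * (Y : ℝ) * (33 * lq) ≤ 10 ^ 9 * (Y : ℝ) * (lq : ℝ) ^ 2 := by
      have : (Y : ℝ) * lq ≤ (Y : ℝ) * (lq : ℝ) ^ 2 := by
        apply mul_le_mul_of_nonneg_left _ (by positivity)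
        exact le_self_pow₀ hlqR (by norm_num)
      have h0 : 0 < (Y : ℝ) * lq := mul_pos (by linarith) (by linarith)
      calc 870 * (Y : ℝ) * (33 * lq) = 28710 * ((Y : ℝ) * lq) := by ring
        _ ≤ 10 ^ 9 * ((Y : ℝ) * lq) := mul_le_mul_of_nonneg_right (by norm_num) h0.le
        _ ≤ 10 ^ 9 * ((Y : ℝ) * (lq : ℝ) ^ 2) := mul_le_mul_of_nonneg_left this (by norm_num)
        _ = 10 ^ 9 * (Y : ℝ) * (lq : ℝ) ^ 2 := by ring
    linarith
  have h14 : 145 * Z * L ≤ x := by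
    have a1 : 870 * (Y : ℝ) * L * Z ≤ 6 * ((x : ℝ) * Y) :=
      (mul_le_mul_of_nonneg_right h13 (by positivity)).trans h12
    have a2 : (Y : ℝ) * (145 * Z * L) ≤ (Y : ℝ) * x := by
      have e : (Y : ℝ) * (145 * Z * L) = (870 * (Y : ℝ) * L * Z) / 6 := by ring
      rw [e, div_le_iff₀ (by norm_num)]
      linarith
    have a3 : (145 : ℝ) * Z * L ≤ x := le_of_mul_le_mul_left a2 (by linarith)
    exact_mod_cast a3
  have hcop : Nat.Coprime x q := ((Nat.Prime.coprime_iff_not_dvd hq).2 hqx).symm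
  have main := Pool.Agent.H374R2.W.QL.lfl hA hU hx hq2 hcop hY1 hZ1 hL4 hY2 hZ2 hY3 hZ3 h14 hL1
  have h15 := main.trans_le h8
  have h16 := Real.log_lt_log (Real.exp_pos _) h15
  rw [Real.log_exp, Real.log_div (by norm_num) hP0.ne', hlogP] at h16
  -- `κ x log A` is small
  have h17 : κ * (q * Real.log U) < 3 + 20880 * (Y : ℝ) * Z * (L : ℝ) ^ 2 := by
    have a1 := mul_le_mul_of_nonneg_left h10 hκ0.le
    have a2 : κ * ((q : ℝ) * Real.log U - 1) = κ * (q * Real.log U) - κ := by ring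
    have a3 : κ * ((x : ℝ) * Real.log A) = κ * x * Real.log A := by ring
    rw [a2, a3] at a1
    linarith
  have h18 : (κ * q) * Z < (9 + 62640 * (Y : ℝ) * (L : ℝ) ^ 2) * Z := by
    calc (κ * q) * Z = κ * (q * Z) := by ring
      _ ≤ κ * (3 * (q * Real.log U)) := mul_le_mul_of_nonneg_left h11 hκ0.le
      _ = 3 * (κ * (q * Real.log U)) := by ring
      _ < 3 * (3 + 20880 * (Y : ℝ) * Z * (L : ℝ) ^ 2) := by linarith
      _ = 9 * 1 + 62640 * (Y : ℝ) * (L : ℝ) ^ 2 * Z := by ring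
      _ ≤ 9 * Z + 62640 * (Y : ℝ) * (L : ℝ) ^ 2 * Z := by linarith
      _ = (9 + 62640 * (Y : ℝ) * (L : ℝ) ^ 2) * Z := by ring
  have h19 : κ * q < 9 + 62640 * (Y : ℝ) * (L : ℝ) ^ 2 :=
    lt_of_mul_lt_mul_right h18 (by linarith)
  have h20 : 62640 * (Y : ℝ) * (L : ℝ) ^ 2 ≤ 62640 * (Y : ℝ) * (33 * lq) ^ 2 := by gcongr
  have h21 : (1 : ℝ) ≤ (Y : ℝ) * (lq : ℝ) ^ 2 := by
    have : (1 : ℝ) ≤ (lq : ℝ) ^ 2 := one_le_pow₀ hlqR
    calc (1 : ℝ) = 1 * 1 := by norm_num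
      _ ≤ (Y : ℝ) * (lq : ℝ) ^ 2 := mul_le_mul hYR this (by norm_num) (by linarith)
  have h22 : 62640 * (Y : ℝ) * (33 * lq) ^ 2 = 68214960 * ((Y : ℝ) * (lq : ℝ) ^ 2) := by ring
  rw [mul_assoc] at hCY
  rw [h22] at h20
  generalize (Y : ℝ) * (lq : ℝ) ^ 2 = w at *
  linarith

end Pool.Agent.K1H94.Q
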