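import Mathlib
import Pool.Agent.K1H94.P.Count
import Pool.Agent.K1H94.Q.RealLogs

/-!
One given base and a third term `T` with a large `p`-part or of small size: pairs of values, for a
divisor `q` of the exponent.
-/

set_option autoImplicit false

namespace Pool.Agent.K1H94.Q

open Pool.Agent.H374R2.V (HH)
open Pool.Agent.H374R2.W (SolP SolR)

/-- pairs of values, `p`-adic kind -/
def EA (κ : ℝ) (q i p a : ℕ) (s : ℤ) : Set (ℕ × ℕ) :=
  {w | ∃ (U x' e : ℕ) (T : ℤ), w = (U ^ q, a ^ (q * x' + i)) ∧ 0 < U ∧ T ≠ 0 ∧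
    Nat.Coprime U a ∧ (p : ℤ) ^ e ∣ T ∧
    ((max (U ^ q) (a ^ (q * x' + i)) : ℕ) : ℝ) ^ κ ≤ (p : ℝ) ^ e ∧
    (U : ℤ) ^ q - s * (a : ℤ) ^ (q * x' + i) = T}

/-- pairs of values, real kind -/
def EB (κ : ℝ) (q i a : ℕ) : Set (ℕ × ℕ) :=
  {w | ∃ (U x' : ℕ) (T : ℤ), w = (U ^ q, a ^ (q * x' + i)) ∧ 0 < U ∧ T ≠ 0 ∧
    Nat.Coprime U a ∧ |(T : ℝ)| ≤ ((max (U ^ q) (a ^ (q * x' + i)) : ℕ) : ℝ) ^ (1 - κ) ∧
    (U : ℤ) ^ q - (a : ℤ) ^ (q * x' + i) = T}

theorem small_or {q L H : ℕ} {lam : ℝ} (hL : lam ≤ (L : ℝ)) (hq1 : (1 : ℝ) ≤ q) (hH : 0 < H)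
    (hsmall : Real.log H ≤ lam * Real.log (10 ^ 8 * (q : ℝ) ^ 9)) :
    H ≤ (10 ^ 8 * q ^ 9) ^ L := by
  have hlog : 0 ≤ Real.log (10 ^ 8 * (q : ℝ) ^ 9) := by
    apply Real.log_nonneg
    have : (1 : ℝ) ≤ (q : ℝ) ^ 9 := one_le_pow₀ hq1
    linarith
  have hBc : (((10 ^ 8 * q ^ 9) ^ L : ℕ) : ℝ) = (10 ^ 8 * (q : ℝ) ^ 9) ^ L := by
    rw [Nat.cast_pow, Nat.cast_mul, Nat.cast_pow, Nat.cast_pow]
    norm_num
  have h1 : Real.log H ≤ Real.log (((10 ^ 8 * q ^ 9) ^ L : ℕ) : ℝ) := by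
    refine hsmall.trans ?_
    rw [hBc, Real.log_pow]
    exact mul_le_mul_of_nonneg_right hL hlog
  have hq0 : 0 < q := by
    have : (0 : ℝ) < q := by linarith
    exact_mod_cast this
  have hpos : 0 < (10 ^ 8 * q ^ 9) ^ L := by positivity
  have h2 : (H : ℝ) ≤ (((10 ^ 8 * q ^ 9) ^ L : ℕ) : ℝ) :=
    (Real.log_le_log_iff (by exact_mod_cast hH) (by exact_mod_cast hpos)).1 h1
  exact_mod_cast h2

theorem EA_card {κ : ℝ} {q i p a L : ℕ} {s : ℤ} (hκ0 : 0 < κ) (hκ1 : κ ≤ 1)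
    (hq : IsPrimePow q) (hqκ : 1600 / κ ^ 2 ≤ q) (hp : p.Prime) (ha : 0 < a)
    (hs : s = 1 ∨ s = -1) (hL : 50 * (3 / (κ / 4) + 1) ≤ (L : ℝ)) :
    (EA κ q i p a s).Finite ∧
      (EA κ q i p a s).ncard ≤ ((10 ^ 8 * q ^ 9) ^ L + 2) ^ 2 + p ^ 4 := by
  have hq1 : (1 : ℝ) ≤ q := by exact_mod_cast hq.pos
  have hκ4 : 100 / (κ / 4) ^ 2 ≤ (q : ℝ) := by
    have h1 : 100 / (κ / 4) ^ 2 = 1600 / κ ^ 2 := by
      field_simp
      norm_num
    rw [h1]
    exact hqκ
  set c : ℤ := s * (a : ℤ) ^ i with hc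
  set D₁ : Set (ℕ × ℕ) := {w : ℕ × ℕ | ∃ T : ℤ, SolP (2 * (κ / 4)) q p c w.1 w.2 T ∧
      50 * (3 / (κ / 4) + 1) * Real.log (10 ^ 8 * (q : ℝ) ^ 9) ≤
        Real.log (HH q c w.1 w.2)} with hD₁
  set g : ℕ × ℕ → ℕ × ℕ := fun w => (w.1 ^ q, a ^ i * w.2 ^ q) with hg
  set B := (10 ^ 8 * q ^ 9) ^ L with hB
  obtain ⟨f1, n1⟩ := Pool.Agent.K1H94.P.big1 (c := c) (show 0 < κ / 4 by positivity)
    (by linarith) hq hκ4 hp
  have hlog : 0 ≤ Real.log (10 ^ 8 * (q : ℝ) ^ 9) := by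
    apply Real.log_nonneg
    have : (1 : ℝ) ≤ (q : ℝ) ^ 9 := one_le_pow₀ hq1
    linarith
  have hcov : EA κ q i p a s ⊆
      ((Finset.range (B + 2) ×ˢ Finset.range (B + 2) : Finset (ℕ × ℕ)) : Set (ℕ × ℕ)) ∪
        g '' D₁ := by
    rintro w ⟨U, x', e, T, hw, hU, hT0, hUa, hpe, hκe, heq⟩
    have hVq : a ^ (q * x' + i) = a ^ i * (a ^ x') ^ q := by
      rw [pow_add, mul_comm, mul_comm q x', pow_mul]
    have habs : c.natAbs = a ^ i := by
      rw [hc, Int.natAbs_mul, Int.natAbs_pow, Int.natAbs_natCast]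
      rcases hs with rfl | rfl <;> simp
    have hH : HH q c U (a ^ x') = max (U ^ q) (a ^ (q * x' + i)) := by
      rw [HH, habs, hVq]
    rw [← hH] at hκe
    set H := HH q c U (a ^ x') with hHdef
    have hHpos : 0 < H := by
      rw [hH]
      exact lt_of_lt_of_le (pow_pos hU q) (le_max_left _ _)
    by_cases hsmall : H ≤ B + 1
    · left
      rw [hH, max_le_iff] at hsmall
      rw [hw]
      simp only [Finset.coe_product, Finset.coe_range, Set.mem_prod, Set.mem_Iio]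
      exact ⟨by omega, by omega⟩
    · right
      rw [not_le] at hsmall
      have hlarge : 50 * (3 / (κ / 4) + 1) * Real.log (10 ^ 8 * (q : ℝ) ^ 9) < Real.log H := by
        by_contra hcon
        rw [not_lt] at hcon
        have := small_or hL hq1 hHpos hcon
        omega
      have hw2 : w = g (U, a ^ x') := by rw [hw, hg, hVq]
      have heq' : (U : ℤ) ^ q - c * ((a ^ x' : ℕ) : ℤ) ^ q = T := by
        rw [← heq, hc]
        have : (a : ℤ) ^ (q * x' + i) = (a : ℤ) ^ i * ((a ^ x' : ℕ) : ℤ) ^ q := by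
          exact_mod_cast hVq
        rw [this]
        ring
      have hc0 : c ≠ 0 := by
        have h1 : c.natAbs ≠ 0 := by
          rw [habs]
          exact (pow_pos ha i).ne'
        exact Int.natAbs_ne_zero.1 h1
      have hUV : Nat.Coprime U (a ^ x') := Nat.Coprime.pow_right _ hUa
      have hH1 : (1 : ℝ) < H := by exact_mod_cast (by omega : 1 < H)
      have hlH : 0 < Real.log (H : ℝ) := Real.log_pos hH1
      have hpR : (1 : ℝ) < p := by exact_mod_cast hp.one_lt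
      have hlogκ : κ * Real.log H ≤ e * Real.log p := by
        have h1 := Real.log_le_log (by positivity) hκe
        rwa [Real.log_rpow (by positivity), Real.log_pow] at h1
      have he : 0 < e := by
        rcases Nat.eq_zero_or_pos e with h0 | h0
        · exfalso
          rw [h0] at hlogκ
          simp only [Nat.cast_zero, zero_mul] at hlogκ
          have := mul_pos hκ0 hlH
          linarith
        · exact h0
      have hpT : (p : ℤ) ∣ T := (dvd_pow_self (p : ℤ) he.ne').trans hpe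
      have hpT' : (p : ℤ) ∣ (U : ℤ) ^ q - s * (a : ℤ) ^ (q * x' + i) := heq ▸ hpT
      have hss : s ≠ 0 := by rcases hs with rfl | rfl <;> norm_num
      have hpU : ¬ p ∣ U := by
        intro h
        have h1 : (p : ℤ) ∣ (U : ℤ) ^ q := dvd_pow (by exact_mod_cast h) hq.pos.ne'
        have h2 : (p : ℤ) ∣ s * (a : ℤ) ^ (q * x' + i) := by
          have := dvd_sub h1 hpT'
          rwa [sub_sub_cancel] at this
        have h3 : (p : ℤ) ∣ (a : ℤ) ^ (q * x' + i) := by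
          rcases hs with rfl | rfl
          · simpa using h2
          · simpa using h2
        have h4 : p ∣ a := hp.dvd_of_dvd_pow (by exact_mod_cast h3)
        exact hp.not_dvd_one (hUa ▸ Nat.dvd_gcd h h4)
      have hpV : ¬ p ∣ a ^ x' := by
        intro h
        have h0 : p ∣ a := hp.dvd_of_dvd_pow h
        have hx0 : q * x' + i ≠ 0 := by
          intro h1
          have hx1 : x' = 0 := by
            rcases Nat.eq_zero_or_pos x' with h2 | h2
            · exact h2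
            · have := Nat.mul_pos hq.pos h2
              omega
          rw [hx1, pow_zero] at h
          exact hp.not_dvd_one h
        have h1 : (p : ℤ) ∣ s * (a : ℤ) ^ (q * x' + i) :=
          Dvd.dvd.mul_left (dvd_pow (by exact_mod_cast h0) hx0) _
        have h2 : (p : ℤ) ∣ (U : ℤ) ^ q := by
          have := dvd_add hpT' h1
          rwa [sub_add_cancel] at this
        have h3 : p ∣ U := hp.dvd_of_dvd_pow (by exact_mod_cast h2)
        exact hp.not_dvd_one (hUa ▸ Nat.dvd_gcd h3 h0)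
      refine ⟨(U, a ^ x'), ⟨T, ⟨hU, pow_pos ha x', hT0, hc0, heq', hUV, hpU,
        hpV, ⟨e, hpe, ?_⟩, ?_⟩, hlarge.le⟩, hw2.symm⟩
      · have := mul_pos hκ0 hlH
        linarith
      · refine le_trans ?_ hlarge.le
        refine mul_le_mul_of_nonneg_right ?_ hlog
        have h1 : 3 / (2 * (κ / 4)) ≤ 3 / (κ / 4) :=
          div_le_div_of_nonneg_left (by norm_num) (by positivity) (by linarith)
        linarith
  have hfin : (((Finset.range (B + 2) ×ˢ Finset.range (B + 2) : Finset (ℕ × ℕ)) : Set (ℕ × ℕ)) ∪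
        g '' D₁).Finite :=
    (Finset.finite_toSet _).union (f1.image g)
  refine ⟨hfin.subset hcov, ?_⟩
  calc (EA κ q i p a s).ncard ≤ _ := Set.ncard_le_ncard hcov hfin
    _ ≤ _ := Set.ncard_union_le _ _
    _ ≤ (B + 2) ^ 2 + p ^ 4 := by
      refine Nat.add_le_add ?_ ((Set.ncard_image_le f1).trans n1)
      rw [Set.ncard_coe_finset, Finset.card_product, Finset.card_range]
      exact (sq (B + 2)).ge

theorem EB_card {κ : ℝ} {q i a L : ℕ} (hκ0 : 0 < κ) (hκ1 : κ ≤ 1)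
    (hq : IsPrimePow q) (hqκ : 1600 / κ ^ 2 ≤ q) (ha : 0 < a)
    (hL : 50 * (3 / (κ / 4) + 1) ≤ (L : ℝ)) :
    (EB κ q i a).Finite ∧ (EB κ q i a).ncard ≤ ((10 ^ 8 * q ^ 9) ^ L + 2) ^ 2 + 1 := by
  have hq1 : (1 : ℝ) ≤ q := by exact_mod_cast hq.pos
  have hκ4 : 100 / κ ^ 2 ≤ (q : ℝ) := by
    refine le_trans ?_ hqκ
    exact div_le_div_of_nonneg_right (by norm_num) (by positivity)
  set c : ℤ := (a : ℤ) ^ i with hc
  set D₂ : Set (ℕ × ℕ) := {w : ℕ × ℕ | ∃ T : ℤ, SolR κ q c w.1 w.2 T} with hD₂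
  set g : ℕ × ℕ → ℕ × ℕ := fun w => (w.1 ^ q, a ^ i * w.2 ^ q) with hg
  set B := (10 ^ 8 * q ^ 9) ^ L with hB
  have hsub : D₂.Subsingleton := by
    rintro ⟨U, V⟩ ⟨T, hS⟩ ⟨U', V'⟩ ⟨T', hS'⟩
    obtain ⟨h1, h2⟩ := Pool.Agent.H374R2.W.unique_r hκ0 hκ1 hq hκ4 hS hS'
    simp only at h1 h2
    rw [h1, h2]
  have f2 : D₂.Finite := hsub.finite
  have n2 : D₂.ncard ≤ 1 := (Set.ncard_le_one f2).2 fun a ha b hb => hsub ha hb
  have hlog : 0 ≤ Real.log (10 ^ 8 * (q : ℝ) ^ 9) := by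
    apply Real.log_nonneg
    have : (1 : ℝ) ≤ (q : ℝ) ^ 9 := one_le_pow₀ hq1
    linarith
  have hcov : EB κ q i a ⊆
      ((Finset.range (B + 2) ×ˢ Finset.range (B + 2) : Finset (ℕ × ℕ)) : Set (ℕ × ℕ)) ∪
        g '' D₂ := by
    rintro w ⟨U, x', T, hw, hU, hT0, hUa, hTH, heq⟩
    have hVq : a ^ (q * x' + i) = a ^ i * (a ^ x') ^ q := by
      rw [pow_add, mul_comm, mul_comm q x', pow_mul]
    have habs : c.natAbs = a ^ i := by
      rw [hc, Int.natAbs_pow, Int.natAbs_natCast]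
    have hH : HH q c U (a ^ x') = max (U ^ q) (a ^ (q * x' + i)) := by
      rw [HH, habs, hVq]
    rw [← hH] at hTH
    set H := HH q c U (a ^ x') with hHdef
    have hHpos : 0 < H := by
      rw [hH]
      exact lt_of_lt_of_le (pow_pos hU q) (le_max_left _ _)
    by_cases hsmall : H ≤ B + 1
    · left
      rw [hH, max_le_iff] at hsmall
      rw [hw]
      simp only [Finset.coe_product, Finset.coe_range, Set.mem_prod, Set.mem_Iio]
      exact ⟨by omega, by omega⟩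
    · right
      rw [not_le] at hsmall
      have hlarge : 50 * (3 / (κ / 4) + 1) * Real.log (10 ^ 8 * (q : ℝ) ^ 9) < Real.log H := by
        by_contra hcon
        rw [not_lt] at hcon
        have := small_or hL hq1 hHpos hcon
        omega
      have hw2 : w = g (U, a ^ x') := by rw [hw, hg, hVq]
      have heq' : (U : ℤ) ^ q - c * ((a ^ x' : ℕ) : ℤ) ^ q = T := by
        rw [← heq, hc]
        have : (a : ℤ) ^ (q * x' + i) = (a : ℤ) ^ i * ((a ^ x' : ℕ) : ℤ) ^ q := by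
          exact_mod_cast hVq
        rw [this]
      have hc0 : 0 < c := by
        rw [hc]
        positivity
      have hUV : Nat.Coprime U (a ^ x') := Nat.Coprime.pow_right _ hUa
      have hHR : (0 : ℝ) < H := by exact_mod_cast hHpos
      have hTpos : 0 < |(T : ℝ)| := abs_pos.2 (by exact_mod_cast hT0)
      refine ⟨(U, a ^ x'), ⟨T, ⟨hU, pow_pos ha x', hT0, hc0, heq', hUV, ?_, ?_⟩⟩, hw2.symm⟩
      · have h1 := Real.log_le_log hTpos hTH
        rwa [Real.log_rpow hHR] at h1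
      · refine le_trans ?_ hlarge.le
        refine mul_le_mul_of_nonneg_right ?_ hlog
        have h1 : 3 / κ ≤ 3 / (κ / 4) :=
          div_le_div_of_nonneg_left (by norm_num) (by positivity) (by linarith)
        linarith
  have hfin : (((Finset.range (B + 2) ×ˢ Finset.range (B + 2) : Finset (ℕ × ℕ)) : Set (ℕ × ℕ)) ∪
        g '' D₂).Finite :=
    (Finset.finite_toSet _).union (f2.image g)
  refine ⟨hfin.subset hcov, ?_⟩
  calc (EB κ q i a).ncard ≤ _ := Set.ncard_le_ncard hcov hfin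
    _ ≤ _ := Set.ncard_union_le _ _
    _ ≤ (B + 2) ^ 2 + 1 := by
      refine Nat.add_le_add ?_ ((Set.ncard_image_le f2).trans n2)
      rw [Set.ncard_coe_finset, Finset.card_product, Finset.card_range]
      exact (sq (B + 2)).ge

end Pool.Agent.K1H94.Q
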