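import Mathlib
import Pool.Agent.K1H94.Q.Classes

/-!
One given base and a third term `T` with a large `p`-part or of small size: the number of pairs of
values, polynomial in `p log a`, for a large exponent `k`.
-/

set_option autoImplicit false

namespace Pool.Agent.K1H94.Q

open Pool.Agent.K1H94.P (PB)

/-- The pairs of values `(c ^ k, a ^ m)`, `p`-adic kind. -/
def GA (κ : ℝ) (Z p a : ℕ) (s : ℤ) : Set (ℕ × ℕ) :=
  {w | ∃ (c k m e : ℕ) (T : ℤ), w = (c ^ k, a ^ m) ∧ 0 < c ∧ Z ≤ k ∧ 0 < m ∧ T ≠ 0 ∧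
    Nat.Coprime c a ∧ (p : ℤ) ^ e ∣ T ∧
    ((max (c ^ k) (a ^ m) : ℕ) : ℝ) ^ κ ≤ (p : ℝ) ^ e ∧
    (c : ℤ) ^ k - s * (a : ℤ) ^ m = T}

/-- The pairs of values `(c ^ k, a ^ m)`, real kind. -/
def GB (κ : ℝ) (Z a : ℕ) : Set (ℕ × ℕ) :=
  {w | ∃ (c k m : ℕ) (T : ℤ), w = (c ^ k, a ^ m) ∧ 0 < c ∧ Z ≤ k ∧ 0 < m ∧ T ≠ 0 ∧
    Nat.Coprime c a ∧ |(T : ℝ)| ≤ ((max (c ^ k) (a ^ m) : ℕ) : ℝ) ^ (1 - κ) ∧
    (c : ℤ) ^ k - (a : ℤ) ^ m = T}

theorem log_p_le {p : ℕ} (hp : p.Prime) : Nat.log 2 p + 1 ≤ p := by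
  have h1 : 2 ^ Nat.log 2 p ≤ p := Nat.pow_log_le_self 2 hp.pos.ne'
  have h2 : Nat.log 2 p < 2 ^ Nat.log 2 p := Nat.lt_two_pow_self
  omega

/-- summing over the divisors `q` and the classes `i` -/
theorem sum_classes {E : ℕ → ℕ → Set (ℕ × ℕ)} {G : Set (ℕ × ℕ)} {q₀ Q M : ℕ}
    (hcov : G ⊆ ⋃ q ∈ (Finset.range (Q + 1)).filter (fun q => IsPrimePow q ∧ q₀ ≤ q),
        ⋃ i ∈ Finset.range q, E q i)
    (hE : ∀ q i, q ≤ Q → IsPrimePow q → q₀ ≤ q → (E q i).Finite ∧ (E q i).ncard ≤ M) :
    G.Finite ∧ G.ncard ≤ (Q + 1) * ((Q + 1) * M) := by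
  have hEb : ∀ q ∈ (Finset.range (Q + 1)).filter (fun q => IsPrimePow q ∧ q₀ ≤ q),
      ∀ i ∈ Finset.range q, (E q i).Finite ∧ (E q i).ncard ≤ M := by
    intro q hq i _
    rw [Finset.mem_filter, Finset.mem_range] at hq
    exact hE q i (by omega) hq.2.1 hq.2.2
  have hfin : (⋃ q ∈ (Finset.range (Q + 1)).filter (fun q => IsPrimePow q ∧ q₀ ≤ q),
        ⋃ i ∈ Finset.range q, E q i).Finite :=
    Set.Finite.biUnion (Finset.finite_toSet _) fun q hq =>
      Set.Finite.biUnion (Finset.finite_toSet _) fun i hi => (hEb q hq i hi).1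
  refine ⟨hfin.subset hcov, ?_⟩
  calc G.ncard ≤ _ := Set.ncard_le_ncard hcov hfin
    _ ≤ ∑ q ∈ (Finset.range (Q + 1)).filter (fun q => IsPrimePow q ∧ q₀ ≤ q),
        (⋃ i ∈ Finset.range q, E q i).ncard := Finset.set_ncard_biUnion_le _ _
    _ ≤ ∑ _q ∈ (Finset.range (Q + 1)).filter (fun q => IsPrimePow q ∧ q₀ ≤ q),
        ((Q + 1) * M) := by
      refine Finset.sum_le_sum fun q hq => ?_
      calc (⋃ i ∈ Finset.range q, E q i).ncard
          ≤ ∑ i ∈ Finset.range q, (E q i).ncard := Finset.set_ncard_biUnion_le _ _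
        _ ≤ ∑ _i ∈ Finset.range q, M := Finset.sum_le_sum fun i hi => (hEb q hq i hi).2
        _ = q * M := by rw [Finset.sum_const, Finset.card_range, smul_eq_mul]
        _ ≤ _ := by
          refine Nat.mul_le_mul_right _ ?_
          rw [Finset.mem_filter, Finset.mem_range] at hq
          omega
    _ = ((Finset.range (Q + 1)).filter (fun q => IsPrimePow q ∧ q₀ ≤ q)).card *
        ((Q + 1) * M) := by
      rw [Finset.sum_const, smul_eq_mul]
    _ ≤ _ := by
      refine Nat.mul_le_mul_right _ ?_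
      calc ((Finset.range (Q + 1)).filter (fun q => IsPrimePow q ∧ q₀ ≤ q)).card
          ≤ (Finset.range (Q + 1)).card := Finset.card_filter_le _ _
        _ = Q + 1 := Finset.card_range _

theorem GA_card {κ : ℝ} (hκ0 : 0 < κ) (hκ1 : κ ≤ 1) : ∃ Z K : ℕ, ∀ (p a : ℕ) (s : ℤ),
    p.Prime → 0 < a → (s = 1 ∨ s = -1) →
    (GA κ Z p a s).Finite ∧ (GA κ Z p a s).ncard ≤ (p * (Nat.log 2 a + 1)) ^ K := by
  obtain ⟨q₀, hq₀⟩ : ∃ q₀ : ℕ, q₀ = ⌈1600 / κ ^ 2⌉₊ + 4 := ⟨_, rfl⟩
  obtain ⟨L, hL⟩ : ∃ L : ℕ, L = ⌈50 * (3 / (κ / 4) + 1)⌉₊ := ⟨_, rfl⟩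
  obtain ⟨h, hh⟩ : ∃ h : ℕ, h = ⌈1 / κ⌉₊ := ⟨_, rfl⟩
  have hq04 : 4 ≤ q₀ := by omega
  have hq0R : 1600 / κ ^ 2 ≤ (q₀ : ℝ) := by
    rw [hq₀]
    push_cast
    have := Nat.le_ceil (1600 / κ ^ 2)
    linarith
  have hLR : 50 * (3 / (κ / 4) + 1) ≤ (L : ℝ) := by
    rw [hL]
    exact Nat.le_ceil _
  have hhR : 1 / κ ≤ (h : ℝ) := by
    rw [hh]
    exact Nat.le_ceil _
  let Q : ℕ → ℕ := fun X => q₀ ^ 2 + 2 ^ q₀ + 64 * (10 ^ 9 * X ^ 2 * ((h + 2) * X) ^ 2) ^ 2
  let M : ℕ → ℕ := fun X => ((10 ^ 8 * (Q X) ^ 9) ^ L + 2) ^ 2 + X ^ 4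
  have hPQ : PB Q := by
    refine ((PB.const (q₀ ^ 2)).add (PB.const (2 ^ q₀))).add ((PB.const 64).mul ?_)
    refine PB.pow ?_ 2
    exact ((PB.const (10 ^ 9)).mul (PB.id.pow 2)).mul (((PB.const (h + 2)).mul PB.id).pow 2)
  have hPM : PB M := by
    refine PB.add (PB.pow (PB.add (PB.pow ?_ L) (PB.const 2)) 2) (PB.id.pow 4)
    exact (PB.const (10 ^ 8)).mul (hPQ.pow 9)
  obtain ⟨K, hK⟩ := (hPQ.add (PB.const 1)).mul ((hPQ.add (PB.const 1)).mul hPM)
  refine ⟨q₀ ^ q₀, K, fun p a s hp ha hs => ?_⟩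
  set X := p * (Nat.log 2 a + 1) with hX
  have hpX : p ≤ X := Nat.le_mul_of_pos_right p (by omega)
  have hX2 : 2 ≤ X := hp.two_le.trans hpX
  have hcov : GA κ (q₀ ^ q₀) p a s ⊆
      ⋃ q ∈ (Finset.range (Q X + 1)).filter (fun q => IsPrimePow q ∧ q₀ ≤ q),
        ⋃ i ∈ Finset.range q, EA κ q i p a s := by
    rintro w ⟨c, k, m, e, T, hw, hc, hk, hm, hT0, hca, hpe, hκe, heq⟩
    obtain ⟨q, U, hq, hq0, hU, hUq, halt⟩ := Pool.Agent.H374R2.W.exists_q (by omega) hk hc
    have hUa : Nat.Coprime U a := by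
      have h1 : Nat.Coprime (U ^ q) a := by
        rw [hUq]
        exact Nat.Coprime.pow_left _ hca
      exact Nat.Coprime.coprime_dvd_left (dvd_pow_self U hq.pos.ne') h1
    have hpR : (1 : ℝ) < p := by exact_mod_cast hp.one_lt
    have hlp : 0 < Real.log (p : ℝ) := Real.log_pos hpR
    have hqQ : q ≤ Q X := by
      have hA : q₀ ^ 2 ≤ Q X := by
        change q₀ ^ 2 ≤ q₀ ^ 2 + 2 ^ q₀ + _
        exact (Nat.le_add_right _ _).trans (Nat.le_add_right _ _)
      have hB : 2 ^ q₀ ≤ Q X := by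
        change 2 ^ q₀ ≤ q₀ ^ 2 + 2 ^ q₀ + _
        exact (Nat.le_add_left _ _).trans (Nat.le_add_right _ _)
      by_cases h2 : q ≤ 2 ^ q₀
      · exact h2.trans hB
      · rcases halt with h1 | h1 | ⟨hqp, hU2⟩
        · exact h1.trans hA
        · exact absurd h1 h2
        · have hq3 : 3 ≤ q := by omega
          set H := max (c ^ k) (a ^ m) with hH
          have hH2 : 2 ≤ H := by
            calc 2 ≤ U := hU2
              _ ≤ U ^ q := Nat.le_self_pow hq.pos.ne' U
              _ = c ^ k := hUq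
              _ ≤ H := le_max_left _ _
          have hHR : (1 : ℝ) < H := by exact_mod_cast (by omega : 1 < H)
          have hlH : 0 < Real.log (H : ℝ) := Real.log_pos hHR
          have hlogκ : κ * Real.log H ≤ e * Real.log p := by
            have h1 := Real.log_le_log (by positivity) hκe
            rwa [Real.log_rpow (by positivity), Real.log_pow] at h1
          have he : 0 < e := by
            rcases Nat.eq_zero_or_pos e with h0 | h0
            · exfalso
              rw [h0] at hlogκ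
              simp only [Nat.cast_zero, zero_mul] at hlogκ
              have := mul_pos hκ0 hlH
              linarith
            · exact h0
          have hpT : (p : ℤ) ∣ T := (dvd_pow_self (p : ℤ) he.ne').trans hpe
          have hpT' : (p : ℤ) ∣ (c : ℤ) ^ k - s * (a : ℤ) ^ m := heq ▸ hpT
          have hk0 : k ≠ 0 := by
            intro h0
            have : 0 < q₀ ^ q₀ := by positivity
            omega
          have hpc : ¬ p ∣ c := by
            intro h
            have h1 : (p : ℤ) ∣ (c : ℤ) ^ k := dvd_pow (by exact_mod_cast h) hk0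
            have h2 : (p : ℤ) ∣ s * (a : ℤ) ^ m := by
              have := dvd_sub h1 hpT'
              rwa [sub_sub_cancel] at this
            have h3 : (p : ℤ) ∣ (a : ℤ) ^ m := by
              rcases hs with rfl | rfl
              · simpa using h2
              · simpa using h2
            have h4 : p ∣ a := hp.dvd_of_dvd_pow (by exact_mod_cast h3)
            exact hp.not_dvd_one (hca ▸ Nat.dvd_gcd h h4)
          have hpa : ¬ p ∣ a := by
            intro h
            have h1 : (p : ℤ) ∣ s * (a : ℤ) ^ m :=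
              Dvd.dvd.mul_left (dvd_pow (by exact_mod_cast h) hm.ne') _
            have h2 : (p : ℤ) ∣ (c : ℤ) ^ k := by
              have := dvd_add hpT' h1
              rwa [sub_add_cancel] at this
            exact hpc (hp.dvd_of_dvd_pow (by exact_mod_cast h2))
          have hpU : ¬ p ∣ U := by
            intro h
            have h1 : p ∣ c ^ k := hUq ▸ dvd_pow h hq.pos.ne'
            exact hpc (hp.dvd_of_dvd_pow h1)
          -- the size of `H` and `T`
          have hHp : H ≤ p ^ (h * e) := by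
            have h1 : Real.log H ≤ ((h * e : ℕ) : ℝ) * Real.log p := by
              have h3 : Real.log H = 1 / κ * (κ * Real.log H) := by
                field_simp
              rw [h3]
              push_cast
              rw [mul_assoc]
              exact mul_le_mul hhR hlogκ (by positivity) (by positivity)
            rw [← Real.log_pow, Real.log_le_log_iff (by positivity) (by positivity)] at h1
            exact_mod_cast h1
          set N := max a (p ^ (h + 1)) with hN
          have hTH : T.natAbs ≤ 2 * H := by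
            have h1 : (c : ℤ) ^ k ≤ H := by exact_mod_cast le_max_left (c ^ k) (a ^ m)
            have h2 : (a : ℤ) ^ m ≤ H := by exact_mod_cast le_max_right (c ^ k) (a ^ m)
            have h3 : (0 : ℤ) ≤ (c : ℤ) ^ k := by positivity
            have h4 : (0 : ℤ) ≤ (a : ℤ) ^ m := by positivity
            have h5 : |T| ≤ 2 * (H : ℤ) := by
              rw [← heq, abs_le]
              rcases hs with rfl | rfl <;> constructor <;> linarith
            rw [← Int.natCast_natAbs] at h5
            exact_mod_cast h5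
          have hTN : T.natAbs < 2 ^ ((Nat.log 2 N + 1) * e) := by
            rw [pow_mul]
            calc T.natAbs ≤ 2 * H := hTH
              _ ≤ p ^ e * p ^ (h * e) :=
                Nat.mul_le_mul (hp.two_le.trans (Nat.le_self_pow he.ne' p)) hHp
              _ = (p ^ (h + 1)) ^ e := by rw [← pow_add, ← pow_mul]; ring_nf
              _ ≤ N ^ e := Nat.pow_le_pow_left (le_max_right _ _) _
              _ < (2 ^ (Nat.log 2 N + 1)) ^ e :=
                Nat.pow_lt_pow_left (Nat.lt_pow_succ_log_self (by norm_num) N) he.ne'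
          obtain ⟨x, hx, hx1, hax⟩ : ∃ x : ℕ, 0 < x ∧ (a = 1 → q ∣ x) ∧ a ^ x = a ^ m := by
            by_cases h1 : a = 1
            · exact ⟨q, hq.pos, fun _ => dvd_rfl, by rw [h1]; simp⟩
            · exact ⟨m, hm, fun h3 => absurd h3 h1, rfl⟩
          have heq2 : (U : ℤ) ^ q - s * (a : ℤ) ^ x = T := by
            rw [← heq]
            have e1 : (U : ℤ) ^ q = (c : ℤ) ^ k := by exact_mod_cast hUq
            have e2 : (a : ℤ) ^ x = (a : ℤ) ^ m := by exact_mod_cast hax
            rw [e1, e2]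
          have key := Pool.Agent.TH888.G.q_boundD hs hqp hq3 ha hx1 (le_max_left a (p ^ (h + 1)))
            hUa hx he hU2 hp le_rfl hT0 hpe hTN hpU hpa heq2
          rw [← hN] at key
          have hlogN : Nat.log 2 N + 1 ≤ (h + 2) * X := by
            have hlp2 := log_p_le hp
            have h1 : Nat.log 2 (p ^ (h + 1)) + 1 ≤ (h + 2) * X := by
              have h3 : p ^ (h + 1) < 2 ^ ((Nat.log 2 p + 1) * (h + 1)) := by
                rw [pow_mul]
                exact Nat.pow_lt_pow_left (Nat.lt_pow_succ_log_self (by norm_num) p) (by omega)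
              have h4 : Nat.log 2 (p ^ (h + 1)) < (Nat.log 2 p + 1) * (h + 1) :=
                Nat.log_lt_of_lt_pow (pow_pos hp.pos _).ne' h3
              calc Nat.log 2 (p ^ (h + 1)) + 1 ≤ (Nat.log 2 p + 1) * (h + 1) := h4
                _ ≤ p * (h + 1) := Nat.mul_le_mul_right _ hlp2
                _ ≤ X * (h + 2) := Nat.mul_le_mul hpX (by omega)
                _ = (h + 2) * X := by ring
            have h2 : Nat.log 2 a + 1 ≤ (h + 2) * X := by
              calc Nat.log 2 a + 1 ≤ X := Nat.le_mul_of_pos_left _ hp.pos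
                _ ≤ (h + 2) * X := Nat.le_mul_of_pos_left _ (by omega)
            rcases le_total a (p ^ (h + 1)) with h3 | h3
            · rw [hN, max_eq_right h3]
              exact h1
            · rw [hN, max_eq_left h3]
              exact h2
          have key2 : q ≤ 10 ^ 9 * X ^ 2 * ((h + 2) * X) ^ 2 * (Nat.log 2 q + 1) ^ 2 := by
            refine key.trans ?_
            calc 10 ^ 9 * p ^ 2 * (Nat.log 2 q + 1) ^ 2 * (Nat.log 2 N + 1) ^ 2
                = 10 ^ 9 * p ^ 2 * (Nat.log 2 N + 1) ^ 2 * (Nat.log 2 q + 1) ^ 2 := by ring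
              _ ≤ _ := by
                refine Nat.mul_le_mul_right _ (Nat.mul_le_mul (Nat.mul_le_mul_left _ ?_) ?_)
                · exact Nat.pow_le_pow_left hpX 2
                · exact Nat.pow_le_pow_left hlogN 2
          have key3 := Pool.Agent.TH888.G.q_solve hq.pos key2
          change q ≤ q₀ ^ 2 + 2 ^ q₀ + 64 * (10 ^ 9 * X ^ 2 * ((h + 2) * X) ^ 2) ^ 2
          exact key3.trans (Nat.le_add_left _ _)
    have hq' : q ∈ (Finset.range (Q X + 1)).filter (fun q => IsPrimePow q ∧ q₀ ≤ q) := by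
      rw [Finset.mem_filter, Finset.mem_range]
      exact ⟨by omega, hq, hq0⟩
    rw [Set.mem_iUnion₂]
    refine ⟨q, hq', ?_⟩
    rw [Set.mem_iUnion₂]
    refine ⟨m % q, Finset.mem_range.2 (Nat.mod_lt _ hq.pos), ?_⟩
    have hmq : q * (m / q) + m % q = m := Nat.div_add_mod m q
    refine ⟨U, m / q, e, T, ?_, hU, hT0, hUa, hpe, ?_, ?_⟩
    · rw [hw, hUq, hmq]
    · rw [hUq, hmq]
      exact hκe
    · rw [hmq, ← heq]
      have e1 : (U : ℤ) ^ q = (c : ℤ) ^ k := by exact_mod_cast hUq
      rw [e1]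
  have hE : ∀ q i, q ≤ Q X → IsPrimePow q → q₀ ≤ q →
      (EA κ q i p a s).Finite ∧ (EA κ q i p a s).ncard ≤ M X := by
    intro q i h1 h2 h3
    have h4 : 1600 / κ ^ 2 ≤ (q : ℝ) := hq0R.trans (by exact_mod_cast h3)
    obtain ⟨h5, h6⟩ := EA_card (i := i) hκ0 hκ1 h2 h4 hp ha hs hLR
    refine ⟨h5, h6.trans ?_⟩
    have h7 : (10 ^ 8 * q ^ 9) ^ L ≤ (10 ^ 8 * (Q X) ^ 9) ^ L :=
      Nat.pow_le_pow_left (Nat.mul_le_mul_left _ (Nat.pow_le_pow_left h1 9)) L
    have h8 : ((10 ^ 8 * q ^ 9) ^ L + 2) ^ 2 ≤ ((10 ^ 8 * (Q X) ^ 9) ^ L + 2) ^ 2 :=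
      Nat.pow_le_pow_left (by omega) 2
    have h9 : p ^ 4 ≤ X ^ 4 := Nat.pow_le_pow_left hpX 4
    exact Nat.add_le_add h8 h9
  obtain ⟨h1, h2⟩ := sum_classes hcov hE
  exact ⟨h1, h2.trans (hK X hX2)⟩

theorem GB_card {κ : ℝ} (hκ0 : 0 < κ) (hκ1 : κ ≤ 1) : ∃ Z K : ℕ, ∀ a : ℕ, 0 < a →
    (GB κ Z a).Finite ∧ (GB κ Z a).ncard ≤ (2 * (Nat.log 2 a + 1)) ^ K := by
  obtain ⟨q₀, hq₀⟩ : ∃ q₀ : ℕ, q₀ = ⌈1600 / κ ^ 2⌉₊ + 4 := ⟨_, rfl⟩
  obtain ⟨L, hL⟩ : ∃ L : ℕ, L = ⌈50 * (3 / (κ / 4) + 1)⌉₊ := ⟨_, rfl⟩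
  obtain ⟨C, hC1, hC⟩ := real_logs (κ := κ / 2) (by positivity) (by linarith)
  have hq04 : 4 ≤ q₀ := by omega
  have hq0R : 1600 / κ ^ 2 ≤ (q₀ : ℝ) := by
    rw [hq₀]
    push_cast
    have := Nat.le_ceil (1600 / κ ^ 2)
    linarith
  have hLR : 50 * (3 / (κ / 4) + 1) ≤ (L : ℝ) := by
    rw [hL]
    exact Nat.le_ceil _
  let Q : ℕ → ℕ := fun X => q₀ ^ 2 + 2 ^ q₀ + 64 * (C * X) ^ 2
  let M : ℕ → ℕ := fun X => ((10 ^ 8 * (Q X) ^ 9) ^ L + 2) ^ 2 + 1
  have hPQ : PB Q := by
    refine ((PB.const (q₀ ^ 2)).add (PB.const (2 ^ q₀))).add ((PB.const 64).mul ?_)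
    exact PB.pow ((PB.const C).mul PB.id) 2
  have hPM : PB M := by
    refine PB.add (PB.pow (PB.add (PB.pow ?_ L) (PB.const 2)) 2) (PB.const 1)
    exact (PB.const (10 ^ 8)).mul (hPQ.pow 9)
  obtain ⟨K, hK⟩ := (hPQ.add (PB.const 1)).mul ((hPQ.add (PB.const 1)).mul hPM)
  refine ⟨q₀ ^ q₀, K, fun a ha => ?_⟩
  set X := 2 * (Nat.log 2 a + 1) with hX
  have hX2 : 2 ≤ X := by omega
  have hcov : GB κ (q₀ ^ q₀) a ⊆
      ⋃ q ∈ (Finset.range (Q X + 1)).filter (fun q => IsPrimePow q ∧ q₀ ≤ q),
        ⋃ i ∈ Finset.range q, EB κ q i a := by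
    rintro w ⟨c, k, m, T, hw, hc, hk, hm, hT0, hca, hTH, heq⟩
    obtain ⟨q, U, hq, hq0, hU, hUq, halt⟩ := Pool.Agent.H374R2.W.exists_q (by omega) hk hc
    have hUa : Nat.Coprime U a := by
      have h1 : Nat.Coprime (U ^ q) a := by
        rw [hUq]
        exact Nat.Coprime.pow_left _ hca
      exact Nat.Coprime.coprime_dvd_left (dvd_pow_self U hq.pos.ne') h1
    have hqQ : q ≤ Q X := by
      have hA : q₀ ^ 2 ≤ Q X := by
        change q₀ ^ 2 ≤ q₀ ^ 2 + 2 ^ q₀ + _
        exact (Nat.le_add_right _ _).trans (Nat.le_add_right _ _)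
      have hB : 2 ^ q₀ ≤ Q X := by
        change 2 ^ q₀ ≤ q₀ ^ 2 + 2 ^ q₀ + _
        exact (Nat.le_add_left _ _).trans (Nat.le_add_right _ _)
      by_cases h2 : q ≤ 2 ^ q₀
      · exact h2.trans hB
      · rcases halt with h1 | h1 | ⟨hqp, hU2⟩
        · exact h1.trans hA
        · exact absurd h1 h2
        · set H := max (c ^ k) (a ^ m) with hH
          have hUqR : (U : ℝ) ^ q = (c : ℝ) ^ k := by exact_mod_cast hUq
          have heqU : (U : ℤ) ^ q - (a : ℤ) ^ m = T := by
            rw [← heq]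
            have e1 : (U : ℤ) ^ q = (c : ℤ) ^ k := by exact_mod_cast hUq
            rw [e1]
          have hHq : 2 ^ q ≤ H := by
            calc 2 ^ q ≤ U ^ q := Nat.pow_le_pow_left hU2 q
              _ = c ^ k := hUq
              _ ≤ H := le_max_left _ _
          have hHR : (1 : ℝ) < H := by
            have h1 : 2 ≤ 2 ^ q := Nat.le_self_pow hq.pos.ne' 2
            exact_mod_cast (by omega : 1 < H)
          have hH0 : (0 : ℝ) < H := by linarith
          have hlH : 0 < Real.log (H : ℝ) := Real.log_pos hHR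
          have hqR0 : (0 : ℝ) < q := by exact_mod_cast hq.pos
          have hqbig : 1600 / κ ^ 2 ≤ (q : ℝ) := hq0R.trans (by exact_mod_cast hq0)
          have hκq : 1600 ≤ κ * q := by
            rw [div_le_iff₀ (by positivity)] at hqbig
            have h1 : κ ^ 2 ≤ κ := by
              rw [sq]
              exact mul_le_of_le_one_left hκ0.le hκ1
            have h2 : (q : ℝ) * κ ^ 2 ≤ q * κ := mul_le_mul_of_nonneg_left h1 hqR0.le
            linarith
          -- `U ^ q` and `a ^ m` are not `q`-th powers of different integers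
          have hnot : ∀ w : ℕ, a ^ m = w ^ q → False := by
            intro w hwq
            have hne : U ≠ w := by
              rintro rfl
              apply hT0
              rw [← heqU]
              have : (a : ℤ) ^ m = (U : ℤ) ^ q := by exact_mod_cast hwq
              rw [this, sub_self]
            have hH' : H = max U w ^ q := by
              rw [hH, ← hUq, hwq]
              rcases le_total U w with h1 | h1
              · rw [max_eq_right h1, max_eq_right (Nat.pow_le_pow_left h1 q)]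
              · rw [max_eq_left h1, max_eq_left (Nat.pow_le_pow_left h1 q)]
            have hlow : ((max U w : ℕ) : ℝ) ^ (q - 1) ≤ |(T : ℝ)| := by
              have h1 : (max U w) ^ (q - 1) ≤ T.natAbs := by
                have hTw : (U : ℤ) ^ q - (w : ℤ) ^ q = T := by
                  rw [← heqU]
                  have : (a : ℤ) ^ m = (w : ℤ) ^ q := by exact_mod_cast hwq
                  rw [this]
                have h2 : ((max U w ^ (q - 1) : ℕ) : ℤ) ≤ |T| := by
                  rcases lt_or_gt_of_ne hne with h3 | h3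
                  · rw [max_eq_right h3.le]
                    have h4 := Pool.Agent.TH888.G.pow_gap hq.pos h3
                    have h5 : (U : ℤ) ^ q + (w : ℤ) ^ (q - 1) ≤ (w : ℤ) ^ q := by
                      exact_mod_cast h4
                    push_cast
                    have h6 := neg_abs_le T
                    linarith
                  · rw [max_eq_left h3.le]
                    have h4 := Pool.Agent.TH888.G.pow_gap hq.pos h3
                    have h5 : (w : ℤ) ^ q + (U : ℤ) ^ (q - 1) ≤ (U : ℤ) ^ q := by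
                      exact_mod_cast h4
                    push_cast
                    have h6 := le_abs_self T
                    linarith
                rw [← Int.natCast_natAbs] at h2
                exact_mod_cast h2
              have h2 : (((max U w) ^ (q - 1) : ℕ) : ℝ) ≤ (T.natAbs : ℝ) := by exact_mod_cast h1
              have h3 : ((T.natAbs : ℕ) : ℝ) = |(T : ℝ)| := by
                rw [Nat.cast_natAbs, Int.cast_abs]
              rw [h3] at h2
              rw [← Nat.cast_pow]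
              exact h2
            have hm2 : (2 : ℝ) ≤ ((max U w : ℕ) : ℝ) := by
              exact_mod_cast hU2.trans (le_max_left U w)
            have hm0 : (0 : ℝ) < ((max U w : ℕ) : ℝ) := by linarith
            have hlm : 0 < Real.log ((max U w : ℕ) : ℝ) := Real.log_pos (by linarith)
            have h1 := hlow.trans hTH
            have h2 := Real.log_le_log (by positivity) h1
            rw [Real.log_pow, Real.log_rpow hH0, hH', Nat.cast_pow, Real.log_pow,
              Nat.cast_sub hq.pos, Nat.cast_one] at h2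
            have h3 : ((q : ℝ) - 1) ≤ (1 - κ) * q := by
              have h4 : ((q : ℝ) - 1) * Real.log ((max U w : ℕ) : ℝ) ≤
                  ((1 - κ) * q) * Real.log ((max U w : ℕ) : ℝ) := by
                rw [mul_assoc]
                exact h2
              exact le_of_mul_le_mul_right h4 hlm
            linarith
          have ha2 : 2 ≤ a := by
            rcases Nat.lt_or_ge a 2 with h1 | h1
            · exfalso
              have h3 : a = 1 := by omega
              exact hnot 1 (by rw [h3]; simp)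
            · exact h1
          have hqm : ¬ q ∣ m := by
            rintro ⟨m', rfl⟩
            exact hnot (a ^ m') (by rw [← pow_mul, mul_comm])
          -- the size of `a ^ m`
          have hHam : (H : ℝ) ≤ 2 * (a : ℝ) ^ m := by
            rcases le_total (c ^ k) (a ^ m) with h1 | h1
            · rw [hH, max_eq_right h1]
              push_cast
              have : (0 : ℝ) < (a : ℝ) ^ m := by positivity
              linarith
            · have hHc : (H : ℝ) = (c : ℝ) ^ k := by
                rw [hH, max_eq_left h1]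
                push_cast
                rfl
              have h3 : |(T : ℝ)| ≤ H / 2 := by
                refine hTH.trans ?_
                rw [le_div_iff₀ (by norm_num), Real.rpow_sub hH0, Real.rpow_one,
                  div_mul_eq_mul_div, div_le_iff₀ (Real.rpow_pos_of_pos hH0 _)]
                refine mul_le_mul_of_nonneg_left ?_ hH0.le
                have h4 : (2 : ℝ) = 2 ^ (1 : ℝ) := (Real.rpow_one 2).symm
                calc (2 : ℝ) = 2 ^ (1 : ℝ) := h4
                  _ ≤ 2 ^ ((q : ℝ) * κ) :=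
                    Real.rpow_le_rpow_of_exponent_le (by norm_num) (by linarith)
                  _ = ((2 : ℝ) ^ q) ^ κ := by
                    rw [Real.rpow_mul (by norm_num), Real.rpow_natCast]
                  _ ≤ (H : ℝ) ^ κ :=
                    Real.rpow_le_rpow (by positivity) (by exact_mod_cast hHq) hκ0.le
              have h5 : (c : ℝ) ^ k - (a : ℝ) ^ m = T := by exact_mod_cast heq
              have h6 := le_abs_self (T : ℝ)
              rw [← hHc] at h5
              linarith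
          have haR : (1 : ℝ) < a := by exact_mod_cast (by omega : 1 < a)
          have ha0 : (0 : ℝ) < a := by linarith
          have hclose : |(U : ℝ) ^ q - (a : ℝ) ^ m| ≤ (a : ℝ) ^ ((1 - κ / 2) * (m : ℝ)) := by
            have h1 : (U : ℝ) ^ q - (a : ℝ) ^ m = T := by exact_mod_cast heqU
            rw [h1]
            have hAm : (0 : ℝ) < (a : ℝ) ^ m := by positivity
            have h2 : |(T : ℝ)| ≤ (2 * (a : ℝ) ^ m) ^ (1 - κ) :=
              hTH.trans (Real.rpow_le_rpow hH0.le hHam (by linarith))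
            refine h2.trans ?_
            have h3 : (a : ℝ) ^ ((1 - κ / 2) * (m : ℝ)) =
                ((a : ℝ) ^ m) ^ (κ / 2) * ((a : ℝ) ^ m) ^ (1 - κ) := by
              rw [← Real.rpow_add hAm, ← Real.rpow_natCast, ← Real.rpow_mul ha0.le]
              congr 1
              ring
            rw [h3, Real.mul_rpow (by norm_num) hAm.le]
            refine mul_le_mul_of_nonneg_right ?_ (by positivity)
            -- `2 ≤ (a ^ m) ^ (κ / 2)`
            have h4 : (2 : ℝ) ^ (q - 1 : ℕ) ≤ (a : ℝ) ^ m := by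
              have h5 : ((2 ^ q : ℕ) : ℝ) ≤ H := by exact_mod_cast hHq
              have h6 : ((2 ^ q : ℕ) : ℝ) = 2 * (2 : ℝ) ^ (q - 1 : ℕ) := by
                push_cast
                rw [← pow_succ', Nat.sub_add_cancel hq.pos]
              rw [h6] at h5
              linarith
            calc (2 : ℝ) ^ (1 - κ) ≤ 2 ^ (((q - 1 : ℕ) : ℝ) * (κ / 2)) := by
                  apply Real.rpow_le_rpow_of_exponent_le (by norm_num)
                  rw [Nat.cast_sub hq.pos, Nat.cast_one]
                  nlinarith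
              _ = ((2 : ℝ) ^ (q - 1 : ℕ)) ^ (κ / 2) := by
                rw [Real.rpow_mul (by norm_num), Real.rpow_natCast]
              _ ≤ ((a : ℝ) ^ m) ^ (κ / 2) :=
                Real.rpow_le_rpow (by positivity) h4 (by positivity)
          have key := hC a U q m ha2 hU2 hqp hqm hm hclose
          have key2 : q ≤ C * X * (Nat.log 2 q + 1) ^ 2 := by
            refine key.trans (Nat.mul_le_mul_right _ (Nat.mul_le_mul_left _ ?_))
            omega
          have key3 := Pool.Agent.TH888.G.q_solve hq.pos key2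
          change q ≤ q₀ ^ 2 + 2 ^ q₀ + 64 * (C * X) ^ 2
          exact key3.trans (Nat.le_add_left _ _)
    have hq' : q ∈ (Finset.range (Q X + 1)).filter (fun q => IsPrimePow q ∧ q₀ ≤ q) := by
      rw [Finset.mem_filter, Finset.mem_range]
      exact ⟨by omega, hq, hq0⟩
    rw [Set.mem_iUnion₂]
    refine ⟨q, hq', ?_⟩
    rw [Set.mem_iUnion₂]
    refine ⟨m % q, Finset.mem_range.2 (Nat.mod_lt _ hq.pos), ?_⟩
    have hmq : q * (m / q) + m % q = m := Nat.div_add_mod m q
    refine ⟨U, m / q, T, ?_, hU, hT0, hUa, ?_, ?_⟩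
    · rw [hw, hUq, hmq]
    · rw [hUq, hmq]
      exact hTH
    · rw [hmq, ← heq]
      have e1 : (U : ℤ) ^ q = (c : ℤ) ^ k := by exact_mod_cast hUq
      rw [e1]
  have hE : ∀ q i, q ≤ Q X → IsPrimePow q → q₀ ≤ q →
      (EB κ q i a).Finite ∧ (EB κ q i a).ncard ≤ M X := by
    intro q i h1 h2 h3
    have h4 : 1600 / κ ^ 2 ≤ (q : ℝ) := hq0R.trans (by exact_mod_cast h3)
    obtain ⟨h5, h6⟩ := EB_card (i := i) hκ0 hκ1 h2 h4 ha hLR
    refine ⟨h5, h6.trans ?_⟩
    have h7 : (10 ^ 8 * q ^ 9) ^ L ≤ (10 ^ 8 * (Q X) ^ 9) ^ L :=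
      Nat.pow_le_pow_left (Nat.mul_le_mul_left _ (Nat.pow_le_pow_left h1 9)) L
    have h8 : ((10 ^ 8 * q ^ 9) ^ L + 2) ^ 2 ≤ ((10 ^ 8 * (Q X) ^ 9) ^ L + 2) ^ 2 :=
      Nat.pow_le_pow_left (by omega) 2
    exact Nat.add_le_add h8 le_rfl
  obtain ⟨h1, h2⟩ := sum_classes hcov hE
  exact ⟨h1, h2.trans (hK X hX2)⟩

end Pool.Agent.K1H94.Q
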