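import Mathlib
import Pool.Agent.K1H94.Q.Count
import Pool.Agent.K1H94.P.Final
import Pool.Agent.K1H94.R.Final

/-!
One given base; the part prime to `S` of the term `b ^ n` is at most the `(1 - κ)`-th power of the
larger one of the two other terms. The value triples.
-/

set_option autoImplicit false

namespace Pool.Agent.K1H94.Q

open Pool.Agent.K1H94.P (sPart perm3 maps sg sg' sg_or sg'_or log_nat)
open Pool.Agent.K1H94.R (sPart_pos)

/-- Value triples of solutions with a base `a`, a term `b ^ n` whose part prime to `S` is small, and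
an exponent `k ≥ Z` of the third base. -/
def Triples (κ : ℝ) (Z a : ℕ) (S : Finset ℕ) : Set (ℕ × ℕ × ℕ) :=
  {v | v.1 + v.2.1 = v.2.2 ∧ ∃ b c m n k : ℕ, 1 ≤ b ∧ 1 ≤ c ∧ 1 ≤ m ∧ 1 ≤ n ∧ Z ≤ k ∧
    Nat.Coprime a b ∧ Nat.Coprime a c ∧ Nat.Coprime b c ∧
    ((b ^ n : ℕ) : ℝ) ≤ (sPart S (b ^ n) : ℝ) * ((max (a ^ m) (c ^ k) : ℕ) : ℝ) ^ (1 - κ) ∧
    ({v.1, v.2.1, v.2.2} : Multiset ℕ) = {a ^ m, b ^ n, c ^ k}}

/-- one prime of `S` has a large part, or the term is small -/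
theorem dichotomy {κ H : ℝ} (hκ0 : 0 < κ) (hH : 1 ≤ H) {s y : ℕ} {S : Finset ℕ} (hS : S.card ≤ s)
    (hp : ∀ p ∈ S, p.Prime) (h : (y : ℝ) ≤ (sPart S y : ℝ) * H ^ (1 - κ)) :
    (y : ℝ) ≤ H ^ (1 - κ / 2) ∨
      ∃ p ∈ S, H ^ (κ / (2 * (s + 1))) ≤ (p : ℝ) ^ y.factorization p := by
  by_contra hcon
  push Not at hcon
  obtain ⟨h1, h2⟩ := hcon
  have hH0 : 0 < H := by linarith
  have h3 : (sPart S y : ℝ) ≤ H ^ (κ / 2) := by
    rw [sPart, Nat.cast_prod]
    calc ∏ p ∈ S, ((p ^ y.factorization p : ℕ) : ℝ) ≤ ∏ _p ∈ S, H ^ (κ / (2 * ((s : ℝ) + 1))) := by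
          refine Finset.prod_le_prod (fun p _ => Nat.cast_nonneg _) fun p hpS => ?_
          rw [Nat.cast_pow]
          exact (h2 p hpS).le
      _ = H ^ (κ / (2 * ((s : ℝ) + 1)) * S.card) := by
        rw [Finset.prod_const, ← Real.rpow_natCast, ← Real.rpow_mul hH0.le]
      _ ≤ H ^ (κ / 2) := by
        apply Real.rpow_le_rpow_of_exponent_le hH
        have h5 : (S.card : ℝ) ≤ s + 1 := by
          have : (S.card : ℝ) ≤ s := by exact_mod_cast hS
          linarith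
        calc κ / (2 * ((s : ℝ) + 1)) * S.card ≤ κ / (2 * ((s : ℝ) + 1)) * (s + 1) :=
              mul_le_mul_of_nonneg_left h5 (by positivity)
          _ = κ / 2 := by field_simp
  have h4 : (y : ℝ) ≤ H ^ (1 - κ / 2) := by
    calc (y : ℝ) ≤ (sPart S y : ℝ) * H ^ (1 - κ) := h
      _ ≤ H ^ (κ / 2) * H ^ (1 - κ) := mul_le_mul_of_nonneg_right h3 (by positivity)
      _ = H ^ (1 - κ / 2) := by
        rw [← Real.rpow_add hH0]
        congr 1
        ring
  linarith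

theorem cover {κ : ℝ} (hκ0 : 0 < κ) {s Z Z₁ Z₂ a : ℕ} {S : Finset ℕ} (ha : 1 ≤ a)
    (hS : S.card ≤ s) (hp : ∀ p ∈ S, p.Prime) (hZ₁ : Z₁ ≤ Z) (hZ₂ : Z₂ ≤ Z) :
    Triples κ Z a S ⊆ (⋃ p ∈ S, ⋃ j ∈ (Finset.univ : Finset (Fin 6)),
      maps j '' GA (κ / (2 * (s + 1))) Z₁ p a (sg j)) ∪
        ⋃ j ∈ (Finset.univ : Finset (Fin 6)), maps j '' GB (κ / 2) Z₂ a := by
  rintro ⟨x, y, z⟩ ⟨hsum, b, c, m, n, k, hb, hc, hm, hn, hk, hab, hac, hbc, hpart, hmul⟩
  simp only at hsum hmul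
  set H : ℕ := max (a ^ m) (c ^ k) with hHdef
  have hHpos : 1 ≤ H := (Nat.one_le_pow _ _ ha).trans (le_max_left _ _)
  have hHR : (1 : ℝ) ≤ (H : ℝ) := by exact_mod_cast hHpos
  have hyne : b ^ n ≠ 0 := (pow_pos hb n).ne'
  have key : ∀ j : Fin 6, (c : ℤ) ^ k - sg j * (a : ℤ) ^ m = sg' j * (b : ℤ) ^ n →
      maps j (c ^ k, a ^ m) = (x, y, z) →
      (x, y, z) ∈ (⋃ p ∈ S, ⋃ j ∈ (Finset.univ : Finset (Fin 6)),
        maps j '' GA (κ / (2 * (s + 1))) Z₁ p a (sg j)) ∪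
          ⋃ j ∈ (Finset.univ : Finset (Fin 6)), maps j '' GB (κ / 2) Z₂ a := by
    intro j hj hmap
    have hT0 : sg' j * (b : ℤ) ^ n ≠ 0 := by
      have h1 : (b : ℤ) ^ n ≠ 0 := by exact_mod_cast hyne
      rcases sg'_or j with h | h <;> rw [h] <;> simpa using h1
    rcases dichotomy hκ0 hHR hS hp hpart with h1 | ⟨p, hpS, h1⟩
    · right
      have hsg : sg j = 1 := by
        rcases sg_or j with h | h
        · exact h
        · exfalso
          rw [h] at hj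
          have hck : (0 : ℤ) < (c : ℤ) ^ k := by positivity
          have ham : (0 : ℤ) < (a : ℤ) ^ m := by positivity
          have hbn : (0 : ℤ) < (b : ℤ) ^ n := by positivity
          have h2 : (c : ℤ) ^ k + (a : ℤ) ^ m = (b : ℤ) ^ n := by
            rcases sg'_or j with h3 | h3 <;> rw [h3] at hj <;> linarith
          have h3 : c ^ k + a ^ m = b ^ n := by exact_mod_cast h2
          have h4 : H + 1 ≤ b ^ n := by
            rw [hHdef]
            have hck' : 0 < c ^ k := pow_pos hc k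
            have ham' : 0 < a ^ m := pow_pos ha m
            rcases le_total (a ^ m) (c ^ k) with h5 | h5
            · rw [max_eq_right h5]
              omega
            · rw [max_eq_left h5]
              omega
          have h5 : (H : ℝ) ^ (1 - κ / 2) ≤ (H : ℝ) ^ (1 : ℝ) :=
            Real.rpow_le_rpow_of_exponent_le hHR (by linarith)
          rw [Real.rpow_one] at h5
          have h6 : ((H + 1 : ℕ) : ℝ) ≤ ((b ^ n : ℕ) : ℝ) := by exact_mod_cast h4
          push_cast at h6 h1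
          linarith
      rw [Set.mem_iUnion₂]
      refine ⟨j, Finset.mem_univ _, (c ^ k, a ^ m), ?_, hmap⟩
      rw [hsg, one_mul] at hj
      refine ⟨c, k, m, sg' j * (b : ℤ) ^ n, rfl, hc, hZ₂.trans hk, hm, hT0, hac.symm, ?_, hj⟩
      have h2 : |((sg' j * (b : ℤ) ^ n : ℤ) : ℝ)| = ((b ^ n : ℕ) : ℝ) := by
        push_cast
        rw [abs_mul, abs_of_nonneg (show (0 : ℝ) ≤ (b : ℝ) ^ n by positivity)]
        rcases sg'_or j with h | h <;> rw [h] <;> simp
      rw [h2, max_comm]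
      exact h1
    · left
      rw [Set.mem_iUnion₂]
      refine ⟨p, hpS, ?_⟩
      rw [Set.mem_iUnion₂]
      refine ⟨j, Finset.mem_univ _, (c ^ k, a ^ m), ?_, hmap⟩
      refine ⟨c, k, m, (b ^ n).factorization p, sg' j * (b : ℤ) ^ n, rfl, hc, hZ₁.trans hk, hm,
        hT0, hac.symm, ?_, ?_, hj⟩
      · refine Dvd.dvd.mul_left ?_ _
        exact_mod_cast Nat.ordProj_dvd (b ^ n) p
      · rw [max_comm]
        exact h1
  rcases perm3 hmul with ⟨h1, h2, h3⟩ | ⟨h1, h2, h3⟩ | ⟨h1, h2, h3⟩ | ⟨h1, h2, h3⟩ |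
      ⟨h1, h2, h3⟩ | ⟨h1, h2, h3⟩
  · have h4 : a ^ m + b ^ n = c ^ k := by rw [← h1, ← h2, ← h3]; exact hsum
    have h5 : (a : ℤ) ^ m + (b : ℤ) ^ n = (c : ℤ) ^ k := by exact_mod_cast h4
    refine key 0 ?_ ?_
    · simp only [sg, sg']
      linarith
    · simp only [maps, Prod.mk.injEq]
      omega
  · have h4 : a ^ m + c ^ k = b ^ n := by rw [← h1, ← h2, ← h3]; exact hsum
    have h5 : (a : ℤ) ^ m + (c : ℤ) ^ k = (b : ℤ) ^ n := by exact_mod_cast h4
    refine key 4 ?_ ?_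
    · simp only [sg, sg']
      linarith
    · simp only [maps, Prod.mk.injEq]
      omega
  · have h4 : b ^ n + a ^ m = c ^ k := by rw [← h1, ← h2, ← h3]; exact hsum
    have h5 : (b : ℤ) ^ n + (a : ℤ) ^ m = (c : ℤ) ^ k := by exact_mod_cast h4
    refine key 1 ?_ ?_
    · simp only [sg, sg']
      linarith
    · simp only [maps, Prod.mk.injEq]
      omega
  · have h4 : b ^ n + c ^ k = a ^ m := by rw [← h1, ← h2, ← h3]; exact hsum
    have h5 : (b : ℤ) ^ n + (c : ℤ) ^ k = (a : ℤ) ^ m := by exact_mod_cast h4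
    refine key 2 ?_ ?_
    · simp only [sg, sg']
      linarith
    · simp only [maps, Prod.mk.injEq]
      omega
  · have h4 : c ^ k + a ^ m = b ^ n := by rw [← h1, ← h2, ← h3]; exact hsum
    have h5 : (c : ℤ) ^ k + (a : ℤ) ^ m = (b : ℤ) ^ n := by exact_mod_cast h4
    refine key 5 ?_ ?_
    · simp only [sg, sg']
      linarith
    · simp only [maps, Prod.mk.injEq]
      omega
  · have h4 : c ^ k + b ^ n = a ^ m := by rw [← h1, ← h2, ← h3]; exact hsum
    have h5 : (c : ℤ) ^ k + (b : ℤ) ^ n = (a : ℤ) ^ m := by exact_mod_cast h4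
    refine key 3 ?_ ?_
    · simp only [sg, sg']
      linarith
    · simp only [maps, Prod.mk.injEq]
      omega

/-- **One given base, one term with a small part prime to `S`: the number of solutions.** -/
theorem main (κ : ℝ) (hκ0 : 0 < κ) (hκ1 : κ ≤ 1) (s : ℕ) : ∃ Z K : ℕ, ∀ (a R : ℕ) (S : Finset ℕ),
    1 ≤ a → 2 ≤ R → (∀ p ∈ S, p.Prime ∧ p ≤ R) → S.card ≤ s →
    (Triples κ Z a S).Finite ∧
      ((Triples κ Z a S).ncard : ℝ) ≤ ((R : ℝ) * Real.log (a + 1)) ^ K := by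
  have hs1 : (1 : ℝ) ≤ (s : ℝ) + 1 := by
    have : (0 : ℝ) ≤ s := Nat.cast_nonneg s
    linarith
  obtain ⟨Z₁, K₁, hK₁⟩ := GA_card (κ := κ / (2 * (s + 1))) (by positivity) (by
    rw [div_le_one (by positivity)]
    linarith)
  obtain ⟨Z₂, K₂, hK₂⟩ := GB_card (κ := κ / 2) (by positivity) (by linarith)
  have hlog2 : (0.6931471803 : ℝ) < Real.log 2 := Real.log_two_gt_d9
  obtain ⟨t, ht⟩ := pow_unbounded_of_one_lt (((6 * s + 6) * 3 ^ (K₁ + K₂) : ℕ) : ℝ)
    (show (1 : ℝ) < 2 * Real.log 2 by linarith)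
  refine ⟨max Z₁ Z₂, K₁ + K₂ + t, fun a R S ha hR hp hS => ?_⟩
  have hcov := cover (Z := max Z₁ Z₂) hκ0 ha hS (fun p h => (hp p h).1) (le_max_left Z₁ Z₂)
    (le_max_right Z₁ Z₂)
  have hfinA : (⋃ p ∈ S, ⋃ j ∈ (Finset.univ : Finset (Fin 6)),
      maps j '' GA (κ / (2 * (s + 1))) Z₁ p a (sg j)).Finite :=
    Set.Finite.biUnion (Finset.finite_toSet _) fun p hpS =>
      Set.Finite.biUnion (Finset.finite_toSet _) fun j _ =>
        (hK₁ p a _ (hp p hpS).1 ha (sg_or j)).1.image _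
  have hfinB : (⋃ j ∈ (Finset.univ : Finset (Fin 6)), maps j '' GB (κ / 2) Z₂ a).Finite :=
    Set.Finite.biUnion (Finset.finite_toSet _) fun j _ => (hK₂ a ha).1.image _
  refine ⟨(hfinA.union hfinB).subset hcov, ?_⟩
  set X := R * (Nat.log 2 a + 1) with hX
  have hX1 : 1 ≤ X := by
    rw [hX]
    exact Nat.mul_pos (by omega) (by omega)
  have hnat : (Triples κ (max Z₁ Z₂) a S).ncard ≤ (6 * s + 6) * X ^ (K₁ + K₂) := by
    have hA : (⋃ p ∈ S, ⋃ j ∈ (Finset.univ : Finset (Fin 6)),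
        maps j '' GA (κ / (2 * (s + 1))) Z₁ p a (sg j)).ncard ≤ s * (6 * X ^ (K₁ + K₂)) := by
      calc _ ≤ ∑ p ∈ S, (⋃ j ∈ (Finset.univ : Finset (Fin 6)),
            maps j '' GA (κ / (2 * (s + 1))) Z₁ p a (sg j)).ncard :=
            Finset.set_ncard_biUnion_le _ _
        _ ≤ ∑ _p ∈ S, 6 * X ^ (K₁ + K₂) := by
          refine Finset.sum_le_sum fun p hpS => ?_
          calc (⋃ j ∈ (Finset.univ : Finset (Fin 6)),
              maps j '' GA (κ / (2 * (s + 1))) Z₁ p a (sg j)).ncard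
              ≤ ∑ j ∈ (Finset.univ : Finset (Fin 6)),
                (maps j '' GA (κ / (2 * (s + 1))) Z₁ p a (sg j)).ncard :=
                Finset.set_ncard_biUnion_le _ _
            _ ≤ ∑ _j ∈ (Finset.univ : Finset (Fin 6)), X ^ (K₁ + K₂) := by
              refine Finset.sum_le_sum fun j _ => ?_
              obtain ⟨f1, f2⟩ := hK₁ p a _ (hp p hpS).1 ha (sg_or j)
              refine (Set.ncard_image_le f1).trans (f2.trans ?_)
              calc (p * (Nat.log 2 a + 1)) ^ K₁ ≤ X ^ K₁ :=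
                    Nat.pow_le_pow_left (Nat.mul_le_mul_right _ (hp p hpS).2) K₁
                _ ≤ X ^ (K₁ + K₂) := Nat.pow_le_pow_right hX1 (by omega)
            _ = 6 * X ^ (K₁ + K₂) := by
              rw [Finset.sum_const, Finset.card_univ, Fintype.card_fin, smul_eq_mul]
        _ = S.card * (6 * X ^ (K₁ + K₂)) := by rw [Finset.sum_const, smul_eq_mul]
        _ ≤ _ := Nat.mul_le_mul_right _ hS
    have hB : (⋃ j ∈ (Finset.univ : Finset (Fin 6)), maps j '' GB (κ / 2) Z₂ a).ncard ≤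
        6 * X ^ (K₁ + K₂) := by
      calc _ ≤ ∑ j ∈ (Finset.univ : Finset (Fin 6)), (maps j '' GB (κ / 2) Z₂ a).ncard :=
            Finset.set_ncard_biUnion_le _ _
        _ ≤ ∑ _j ∈ (Finset.univ : Finset (Fin 6)), X ^ (K₁ + K₂) := by
          refine Finset.sum_le_sum fun j _ => ?_
          obtain ⟨f1, f2⟩ := hK₂ a ha
          refine (Set.ncard_image_le f1).trans (f2.trans ?_)
          calc (2 * (Nat.log 2 a + 1)) ^ K₂ ≤ X ^ K₂ :=
                Nat.pow_le_pow_left (Nat.mul_le_mul_right _ hR) K₂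
            _ ≤ X ^ (K₁ + K₂) := Nat.pow_le_pow_right hX1 (by omega)
        _ = 6 * X ^ (K₁ + K₂) := by
          rw [Finset.sum_const, Finset.card_univ, Fintype.card_fin, smul_eq_mul]
    calc (Triples κ (max Z₁ Z₂) a S).ncard ≤ _ := Set.ncard_le_ncard hcov (hfinA.union hfinB)
      _ ≤ _ := Set.ncard_union_le _ _
      _ ≤ s * (6 * X ^ (K₁ + K₂)) + 6 * X ^ (K₁ + K₂) := Nat.add_le_add hA hB
      _ = _ := by ring
  set Y : ℝ := (R : ℝ) * Real.log (a + 1) with hY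
  have haR : (1 : ℝ) ≤ a := by exact_mod_cast ha
  have hl : Real.log 2 ≤ Real.log (a + 1) := Real.log_le_log (by norm_num) (by linarith)
  have hRR : (2 : ℝ) ≤ R := by exact_mod_cast hR
  have hY1 : 2 * Real.log 2 ≤ Y :=
    mul_le_mul hRR hl (by linarith) (by linarith)
  have hXY : (X : ℝ) ≤ 3 * Y := by
    have h5 := mul_le_mul_of_nonneg_left (log_nat a ha) (show (0 : ℝ) ≤ R by linarith)
    rw [hX, Nat.cast_mul, hY]
    linarith
  have h6 : ((Triples κ (max Z₁ Z₂) a S).ncard : ℝ) ≤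
      (((6 * s + 6) * X ^ (K₁ + K₂) : ℕ) : ℝ) := by exact_mod_cast hnat
  calc ((Triples κ (max Z₁ Z₂) a S).ncard : ℝ) ≤ _ := h6
    _ = (6 * s + 6 : ℝ) * (X : ℝ) ^ (K₁ + K₂) := by
      push_cast
      ring
    _ ≤ (6 * s + 6 : ℝ) * (3 * Y) ^ (K₁ + K₂) := by
      refine mul_le_mul_of_nonneg_left ?_ (by positivity)
      exact pow_le_pow_left₀ (Nat.cast_nonneg _) hXY _
    _ = (((6 * s + 6) * 3 ^ (K₁ + K₂) : ℕ) : ℝ) * Y ^ (K₁ + K₂) := by
      push_cast
      rw [mul_pow]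
      ring
    _ ≤ Y ^ t * Y ^ (K₁ + K₂) := by
      refine mul_le_mul_of_nonneg_right (ht.le.trans ?_) (pow_nonneg (by linarith) _)
      exact pow_le_pow_left₀ (by linarith) hY1 t
    _ = Y ^ (K₁ + K₂ + t) := by
      rw [← pow_add, add_comm]

end Pool.Agent.K1H94.Q
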