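import Mathlib
import Pool.Agent.K1H94.R.Fixed
import Pool.Agent.K1H94.Q.Final

/-!
One given base; the part prime to `S` of the term `b ^ n` is at most the `(1 - κ)`-th power of the
larger one of the two other terms; exponent `k > 1 / κ` of the third base: finiteness.
-/

set_option autoImplicit false

namespace Pool.Agent.K1H94.Q

open Polynomial
open Pool.Agent.K1H94.P (sPart perm3)
open Pool.Agent.K1H94.R (gp gp_deg gp_sqf gp_val norm_prod sPart_pos sPart_mono sPart_full)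
open Pool.Agent.Y670.RD (fv fvq rid_form')

/-- the heights of the solutions are bounded -/
theorem fixed_bound {κ : ℝ} (hκ1 : κ ≤ 1) {k a : ℕ} (hk : 1 ≤ k) (hkκ : 1 < κ * k)
    (ha : 0 < a) {S : Finset ℕ} (hS : ∀ p ∈ S, p.Prime) {A : ℤ} (hA : A ≠ 0) {M : ℝ}
    (hM1 : 1 ≤ M) :
    ∃ B : ℕ, ∀ (c x y : ℕ) (σ : ℤ), 0 < c → 0 < y → (σ = 1 ∨ σ = -1) → Nat.Coprime c (a ^ x) →
      (y : ℝ) ≤ (sPart S y : ℝ) * (M * ((max (a ^ x) c : ℕ) : ℝ) ^ k) ^ (1 - κ) →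
      (c : ℤ) ^ k - A * ((a ^ x : ℕ) : ℤ) ^ k = σ * y → c ≤ B ∧ a ^ x ≤ B := by
  classical
  set T : Finset ℕ := S ∪ a.primeFactors with hTdef
  have hT : ∀ p ∈ T, p.Prime := by
    intro p hp
    rw [hTdef, Finset.mem_union] at hp
    rcases hp with h | h
    · exact hS p h
    · exact Nat.prime_of_mem_primeFactors h
  set ε : ℝ := (κ * k - 1) / 2 with hε
  have hε0 : 0 < ε := by rw [hε]; linarith
  obtain ⟨c₀, hc₀, hrid⟩ := rid_form' (gp A k) (gp_sqf hA hk) (by rw [gp_deg hA hk]; omega) T hT ε hε0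
  obtain ⟨B, hB⟩ := exists_nat_ge ((M / c₀) ^ (1 / ε))
  refine ⟨B, fun c x y σ hc hy hσ hcop hpart heq => ?_⟩
  set V : ℕ := a ^ x with hV
  have hV0 : 0 < V := pow_pos ha x
  have hcopZ : IsCoprime (V : ℤ) (c : ℤ) := (Nat.isCoprime_iff_coprime.2 hcop).symm
  have hval := gp_val (A := A) hA hk (V := (V : ℤ)) (c := (c : ℤ)) (by exact_mod_cast hc.ne')
  rw [heq] at hval
  have hyR : (0 : ℝ) < y := by exact_mod_cast hy
  have hVR : (0 : ℝ) < V := by exact_mod_cast hV0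
  have hne : (V : ℤ) * (σ * y) ≠ 0 := by
    have h1 : (V : ℤ) ≠ 0 := by exact_mod_cast hV0.ne'
    have h2 : (y : ℤ) ≠ 0 := by exact_mod_cast hy.ne'
    have h3 : σ ≠ 0 := by rcases hσ with rfl | rfl <;> norm_num
    exact mul_ne_zero h1 (mul_ne_zero h3 h2)
  have hmain := hrid (V : ℤ) (c : ℤ) hcopZ (by rw [hval]; exact hne)
  rw [hval] at hmain
  have hcR : (0 : ℝ) < c := by exact_mod_cast hc
  have hHmax : max |((V : ℤ) : ℝ)| |((c : ℤ) : ℝ)| = ((max V c : ℕ) : ℝ) := by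
    rw [Int.cast_natCast, Int.cast_natCast, abs_of_pos hVR, abs_of_pos hcR, Nat.cast_max]
  rw [hHmax] at hmain
  set H : ℝ := ((max V c : ℕ) : ℝ) with hH
  have hHV : (V : ℝ) ≤ H := by
    rw [hH]
    exact_mod_cast le_max_left V c
  have hHc : (c : ℝ) ≤ H := by
    rw [hH]
    exact_mod_cast le_max_right V c
  have hH1 : 1 ≤ H := le_trans (by exact_mod_cast hV0) hHV
  have hH0 : 0 < H := by linarith
  have habs : |((((V : ℤ) * (σ * y) : ℤ)) : ℝ)| = V * y := by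
    push_cast
    rw [abs_mul, abs_mul, abs_of_pos hVR, abs_of_pos hyR]
    rcases hσ with rfl | rfl <;> simp
  have hnorm : ∏ p ∈ T, (padicNorm p (((V : ℤ) * (σ * y) : ℤ) : ℚ) : ℝ) =
      ((sPart T V : ℕ) : ℝ)⁻¹ * ((sPart T y : ℕ) : ℝ)⁻¹ := by
    rw [← norm_prod hT hV0.ne', ← norm_prod hT hy.ne', ← Finset.prod_mul_distrib]
    refine Finset.prod_congr rfl fun p hp => ?_
    have : Fact p.Prime := ⟨hT p hp⟩
    have h1 : padicNorm p (((V : ℤ) * (σ * y) : ℤ) : ℚ) = padicNorm p V * padicNorm p y := by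
      push_cast
      rw [padicNorm.mul, padicNorm.mul]
      rcases hσ with rfl | rfl
      · simp
      · simp
    rw [h1]
    push_cast
    rfl
  have hVfull : sPart T V = V := by
    refine sPart_full hV0.ne' fun p hp => ?_
    have hpp := Nat.prime_of_mem_primeFactors hp
    have hpd : p ∣ a := hpp.dvd_of_dvd_pow (Nat.dvd_of_mem_primeFactors hp)
    rw [hTdef, Finset.mem_union]
    exact Or.inr (Nat.mem_primeFactors.2 ⟨hpp, hpd, ha.ne'⟩)
  have hW0 : 0 ≤ (M * H ^ k) ^ (1 - κ) := by positivity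
  have hmono : (sPart S y : ℝ) ≤ (sPart T y : ℝ) := by
    exact_mod_cast sPart_mono hT Finset.subset_union_left y
  have hsT : (0 : ℝ) < (sPart T y : ℝ) := by exact_mod_cast sPart_pos hT y
  rw [habs, hnorm, hVfull, gp_deg hA hk] at hmain
  have hcalc : (V : ℝ) * y * ((V : ℝ)⁻¹ * ((sPart T y : ℕ) : ℝ)⁻¹) ≤ (M * H ^ k) ^ (1 - κ) := by
    have h1 : (V : ℝ) * y * ((V : ℝ)⁻¹ * ((sPart T y : ℕ) : ℝ)⁻¹) =
        y / ((sPart T y : ℕ) : ℝ) := by
      field_simp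
    rw [h1, div_le_iff₀ hsT]
    calc (y : ℝ) ≤ (sPart S y : ℝ) * (M * H ^ k) ^ (1 - κ) := hpart
      _ ≤ (sPart T y : ℝ) * (M * H ^ k) ^ (1 - κ) := mul_le_mul_of_nonneg_right hmono hW0
      _ = (M * H ^ k) ^ (1 - κ) * (sPart T y : ℝ) := mul_comm _ _
  have hyκ2 : (M * H ^ k) ^ (1 - κ) ≤ M * H ^ ((k : ℝ) * (1 - κ)) := by
    calc (M * H ^ k) ^ (1 - κ) = M ^ (1 - κ) * H ^ ((k : ℝ) * (1 - κ)) := by
          rw [Real.mul_rpow (by positivity) (by positivity), ← Real.rpow_natCast,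
            ← Real.rpow_mul hH0.le]
      _ ≤ M * H ^ ((k : ℝ) * (1 - κ)) := by
        refine mul_le_mul_of_nonneg_right ?_ (by positivity)
        have hκ0 : 0 < κ := by
          by_contra hcon
          rw [not_lt] at hcon
          have : κ * k ≤ 0 := mul_nonpos_of_nonpos_of_nonneg hcon (Nat.cast_nonneg k)
          linarith
        calc M ^ (1 - κ) ≤ M ^ (1 : ℝ) :=
              Real.rpow_le_rpow_of_exponent_le hM1 (by linarith)
          _ = M := Real.rpow_one M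
  have h7 : c₀ * H ^ (((k + 1 : ℕ) : ℝ) - 2 - ε) ≤ M * H ^ ((k : ℝ) * (1 - κ)) :=
    hmain.trans (hcalc.trans hyκ2)
  have h8 : H ^ ε ≤ M / c₀ := by
    have h9 : H ^ (((k + 1 : ℕ) : ℝ) - 2 - ε) = H ^ ((k : ℝ) * (1 - κ)) * H ^ ε := by
      rw [← Real.rpow_add hH0]
      congr 1
      push_cast
      rw [hε]
      ring
    rw [h9] at h7
    have hp : 0 < H ^ ((k : ℝ) * (1 - κ)) := Real.rpow_pos_of_pos hH0 _
    rw [le_div_iff₀ hc₀]
    by_contra hcon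
    rw [not_le] at hcon
    have := mul_lt_mul_of_pos_right hcon hp
    nlinarith
  have h10 : H ≤ B := by
    refine le_trans ?_ hB
    have h11 : H = (H ^ ε) ^ (1 / ε) := by
      rw [← Real.rpow_mul hH0.le, mul_one_div_cancel hε0.ne', Real.rpow_one]
    rw [h11]
    exact Real.rpow_le_rpow (by positivity) h8 (by positivity)
  exact ⟨by exact_mod_cast hHc.trans h10, by exact_mod_cast hHV.trans h10⟩

/-- the values are bounded, for each exponent `k` -/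
theorem bound_k2 {κ : ℝ} (hκ1 : κ ≤ 1) {k a : ℕ} (hkκ : 1 < κ * k)
    (ha : 0 < a) {S : Finset ℕ} (hS : ∀ p ∈ S, p.Prime) :
    ∃ W : ℕ, ∀ (c m y : ℕ) (s σ : ℤ), 0 < c → 0 < y → (s = 1 ∨ s = -1) → (σ = 1 ∨ σ = -1) →
      Nat.Coprime c a →
      (y : ℝ) ≤ (sPart S y : ℝ) * ((2 * max (a ^ m) (c ^ k) : ℕ) : ℝ) ^ (1 - κ) →
      (c : ℤ) ^ k - s * (a : ℤ) ^ m = σ * y → c ^ k ≤ W ∧ a ^ m ≤ W := by
  have hk : 1 ≤ k := by
    rcases Nat.eq_zero_or_pos k with h | h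
    · rw [h] at hkκ
      norm_num at hkκ
    · exact h
  have haR : (1 : ℝ) ≤ a := by exact_mod_cast ha
  have hM1 : (1 : ℝ) ≤ 2 * (a : ℝ) ^ k := by
    have := one_le_pow₀ (n := k) haR
    linarith
  have h1 : ∀ i : ℕ, ∃ B : ℕ, ∀ (c x y : ℕ) (s σ : ℤ), 0 < c → 0 < y → (s = 1 ∨ s = -1) →
      (σ = 1 ∨ σ = -1) → Nat.Coprime c (a ^ x) →
      (y : ℝ) ≤ (sPart S y : ℝ) * (2 * (a : ℝ) ^ k * ((max (a ^ x) c : ℕ) : ℝ) ^ k) ^ (1 - κ) →
      (c : ℤ) ^ k - s * (a : ℤ) ^ i * ((a ^ x : ℕ) : ℤ) ^ k = σ * y → c ≤ B ∧ a ^ x ≤ B := by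
    intro i
    have ha0 : (a : ℤ) ^ i ≠ 0 := pow_ne_zero _ (by exact_mod_cast ha.ne')
    obtain ⟨B₁, hB₁⟩ := fixed_bound hκ1 hk hkκ ha hS ha0 hM1
    obtain ⟨B₂, hB₂⟩ := fixed_bound hκ1 hk hkκ ha hS (neg_ne_zero.2 ha0) hM1
    refine ⟨max B₁ B₂, fun c x y s σ hc hy hs hσ hcop hpart heq => ?_⟩
    rcases hs with rfl | rfl
    · rw [one_mul] at heq
      obtain ⟨h1, h2⟩ := hB₁ c x y σ hc hy hσ hcop hpart heq
      exact ⟨h1.trans (le_max_left _ _), h2.trans (le_max_left _ _)⟩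
    · rw [neg_one_mul] at heq
      obtain ⟨h1, h2⟩ := hB₂ c x y σ hc hy hσ hcop hpart heq
      exact ⟨h1.trans (le_max_right _ _), h2.trans (le_max_right _ _)⟩
  choose B hB using h1
  set B' := ∑ i ∈ Finset.range k, B i with hB'
  have hBB : ∀ i, i < k → B i ≤ B' := fun i hi =>
    Finset.single_le_sum (f := B) (fun _ _ => Nat.zero_le _) (Finset.mem_range.2 hi)
  refine ⟨a ^ k * B' ^ k, fun c m y s σ hc hy hs hσ hca hpart heq => ?_⟩
  have hm : k * (m / k) + m % k = m := Nat.div_add_mod m k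
  have hml : m % k < k := Nat.mod_lt _ hk
  have ham : a ^ m = a ^ (m % k) * (a ^ (m / k)) ^ k := by
    rw [← pow_mul, ← pow_add]
    congr 1
    rw [mul_comm (m / k) k]
    omega
  have hmax : ((2 * max (a ^ m) (c ^ k) : ℕ) : ℝ) ≤
      2 * (a : ℝ) ^ k * ((max (a ^ (m / k)) c : ℕ) : ℝ) ^ k := by
    have h2 : max (a ^ m) (c ^ k) ≤ a ^ k * (max (a ^ (m / k)) c) ^ k := by
      refine max_le ?_ ?_
      · rw [ham]
        exact Nat.mul_le_mul (Nat.pow_le_pow_right ha hml.le)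
          (Nat.pow_le_pow_left (le_max_left _ _) k)
      · calc c ^ k ≤ (max (a ^ (m / k)) c) ^ k := Nat.pow_le_pow_left (le_max_right _ _) k
          _ ≤ _ := Nat.le_mul_of_pos_left _ (pow_pos ha k)
    have h3 : ((max (a ^ m) (c ^ k) : ℕ) : ℝ) ≤
        (a : ℝ) ^ k * ((max (a ^ (m / k)) c : ℕ) : ℝ) ^ k := by exact_mod_cast h2
    rw [Nat.cast_mul]
    push_cast at h3 ⊢
    linarith
  have hpart' : (y : ℝ) ≤ (sPart S y : ℝ) *
      (2 * (a : ℝ) ^ k * ((max (a ^ (m / k)) c : ℕ) : ℝ) ^ k) ^ (1 - κ) := by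
    refine hpart.trans (mul_le_mul_of_nonneg_left ?_ (Nat.cast_nonneg _))
    exact Real.rpow_le_rpow (Nat.cast_nonneg _) hmax (by linarith)
  obtain ⟨h1, h2⟩ := hB (m % k) c (m / k) y s σ hc hy hs hσ
    (Nat.Coprime.pow_right _ hca) hpart' (by
      rw [← heq]
      have : (a : ℤ) ^ m = (a : ℤ) ^ (m % k) * ((a ^ (m / k) : ℕ) : ℤ) ^ k := by
        exact_mod_cast ham
      rw [this]
      ring)
  have hBm := hBB _ hml
  have hak : 1 ≤ a ^ k := Nat.one_le_pow _ _ ha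
  refine ⟨?_, ?_⟩
  · calc c ^ k ≤ B' ^ k := Nat.pow_le_pow_left (h1.trans hBm) k
      _ ≤ a ^ k * B' ^ k := Nat.le_mul_of_pos_left _ hak
  · rw [ham]
    exact Nat.mul_le_mul (Nat.pow_le_pow_right ha hml.le) (Nat.pow_le_pow_left (h2.trans hBm) k)

end Pool.Agent.K1H94.Q
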