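import Mathlib
import Pool.Agent.K1H94.Q.Fixed

/-!
One given base; the part prime to `S` of the term `b ^ n` is at most the `(1 - κ)`-th power of the
largest term: the number of solutions, and finiteness for `k > 1 / κ`.
-/

set_option autoImplicit false

namespace Pool.Agent.K1H94.Q

open Pool.Agent.K1H94.P (sPart perm3)

/-- Value triples of solutions with a base `a`, a term `b ^ n` whose part prime to `S` is at most the
`(1 - κ)`-th power of the largest term, and an exponent `k ≥ Z` of the third base. -/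
def TriplesT (κ : ℝ) (Z a : ℕ) (S : Finset ℕ) : Set (ℕ × ℕ × ℕ) :=
  {v | v.1 + v.2.1 = v.2.2 ∧ ∃ b c m n k : ℕ, 1 ≤ b ∧ 1 ≤ c ∧ 1 ≤ m ∧ 1 ≤ n ∧ Z ≤ k ∧
    Nat.Coprime a b ∧ Nat.Coprime a c ∧ Nat.Coprime b c ∧
    ((b ^ n : ℕ) : ℝ) ≤ (sPart S (b ^ n) : ℝ) * (v.2.2 : ℝ) ^ (1 - κ) ∧
    ({v.1, v.2.1, v.2.2} : Multiset ℕ) = {a ^ m, b ^ n, c ^ k}}

theorem top_le {u v w A B C : ℕ} (hsum : u + v = w) (h : ({u, v, w} : Multiset ℕ) = {A, B, C}) :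
    w ≤ 2 * max A C := by
  have h1 := le_max_left A C
  have h2 := le_max_right A C
  rcases perm3 h with ⟨h3, h4, h5⟩ | ⟨h3, h4, h5⟩ | ⟨h3, h4, h5⟩ | ⟨h3, h4, h5⟩ |
      ⟨h3, h4, h5⟩ | ⟨h3, h4, h5⟩ <;> omega

theorem top_main (κ : ℝ) (hκ0 : 0 < κ) (hκ1 : κ ≤ 1) (s : ℕ) : ∃ Z K : ℕ,
    ∀ (a R : ℕ) (S : Finset ℕ),
    1 ≤ a → 2 ≤ R → (∀ p ∈ S, p.Prime ∧ p ≤ R) → S.card ≤ s →
    (TriplesT κ Z a S).Finite ∧
      ((TriplesT κ Z a S).ncard : ℝ) ≤ ((R : ℝ) * Real.log (a + 1)) ^ K := by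
  obtain ⟨Z, K, hK⟩ := main (κ / 2) (by positivity) (by linarith) s
  obtain ⟨N₀, hN₀⟩ := exists_nat_ge ((2 : ℝ) * 2 ^ (2 / κ))
  have hlog2 : (0.6931471803 : ℝ) < Real.log 2 := Real.log_two_gt_d9
  obtain ⟨t, ht⟩ := pow_unbounded_of_one_lt ((1 + (N₀ + 1) ^ 3 : ℕ) : ℝ)
    (show (1 : ℝ) < 2 * Real.log 2 by linarith)
  refine ⟨Z, K + t, fun a R S ha hR hp hS => ?_⟩
  have hcov : TriplesT κ Z a S ⊆ Triples (κ / 2) Z a S ∪
      ((Finset.range (N₀ + 1) ×ˢ Finset.range (N₀ + 1) ×ˢ Finset.range (N₀ + 1) :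
        Finset (ℕ × ℕ × ℕ)) : Set (ℕ × ℕ × ℕ)) := by
    rintro ⟨u, v, w⟩ ⟨hsum, b, c, m, n, k, hb, hc, hm, hn, hk, hab, hac, hbc, hpart, hmul⟩
    simp only at hsum hpart hmul
    have hw := top_le hsum hmul
    set H := max (a ^ m) (c ^ k) with hH
    have hH1 : 1 ≤ H := (Nat.one_le_pow _ _ ha).trans (le_max_left _ _)
    have hHR : (1 : ℝ) ≤ (H : ℝ) := by exact_mod_cast hH1
    have hH0 : (0 : ℝ) < H := by linarith
    have hwR : (w : ℝ) ≤ 2 * H := by exact_mod_cast hw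
    by_cases hbig : 2 ≤ (H : ℝ) ^ (κ / 2)
    · left
      refine ⟨hsum, b, c, m, n, k, hb, hc, hm, hn, hk, hab, hac, hbc, ?_, hmul⟩
      refine hpart.trans (mul_le_mul_of_nonneg_left ?_ (Nat.cast_nonneg _))
      rw [← hH]
      calc (w : ℝ) ^ (1 - κ) ≤ (2 * H) ^ (1 - κ) :=
            Real.rpow_le_rpow (Nat.cast_nonneg _) hwR (by linarith)
        _ = 2 ^ (1 - κ) * (H : ℝ) ^ (1 - κ) := Real.mul_rpow (by norm_num) hH0.le
        _ ≤ (H : ℝ) ^ (κ / 2) * (H : ℝ) ^ (1 - κ) := by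
          refine mul_le_mul_of_nonneg_right ?_ (by positivity)
          refine le_trans ?_ hbig
          calc (2 : ℝ) ^ (1 - κ) ≤ 2 ^ (1 : ℝ) :=
                Real.rpow_le_rpow_of_exponent_le (by norm_num) (by linarith)
            _ = 2 := Real.rpow_one 2
        _ = (H : ℝ) ^ (1 - κ / 2) := by
          rw [← Real.rpow_add hH0]
          congr 1
          ring
    · right
      rw [not_le] at hbig
      have h1 : (H : ℝ) ≤ 2 ^ (2 / κ) := by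
        have h2 : (H : ℝ) = ((H : ℝ) ^ (κ / 2)) ^ (2 / κ) := by
          rw [← Real.rpow_mul hH0.le]
          have : κ / 2 * (2 / κ) = 1 := by field_simp
          rw [this, Real.rpow_one]
        rw [h2]
        exact Real.rpow_le_rpow (by positivity) hbig.le (by positivity)
      have h3 : w ≤ N₀ := by
        have : (w : ℝ) ≤ N₀ := by linarith
        exact_mod_cast this
      simp only [Finset.coe_product, Finset.coe_range, Set.mem_prod, Set.mem_Iio]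
      exact ⟨by omega, by omega, by omega⟩
  obtain ⟨f1, f2⟩ := hK a R S ha hR hp hS
  have hfin := f1.union (Finset.finite_toSet (Finset.range (N₀ + 1) ×ˢ Finset.range (N₀ + 1) ×ˢ
    Finset.range (N₀ + 1) : Finset (ℕ × ℕ × ℕ)))
  refine ⟨hfin.subset hcov, ?_⟩
  have hnat : (TriplesT κ Z a S).ncard ≤ (Triples (κ / 2) Z a S).ncard + (N₀ + 1) ^ 3 := by
    calc (TriplesT κ Z a S).ncard ≤ _ := Set.ncard_le_ncard hcov hfin
      _ ≤ _ := Set.ncard_union_le _ _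
      _ = _ := by
        rw [Set.ncard_coe_finset, Finset.card_product, Finset.card_product, Finset.card_range]
        ring
  set Y : ℝ := (R : ℝ) * Real.log (a + 1) with hY
  have haR : (1 : ℝ) ≤ a := by exact_mod_cast ha
  have hl : Real.log 2 ≤ Real.log (a + 1) := Real.log_le_log (by norm_num) (by linarith)
  have hRR : (2 : ℝ) ≤ R := by exact_mod_cast hR
  have hY1 : 2 * Real.log 2 ≤ Y := mul_le_mul hRR hl (by linarith) (by linarith)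
  have hYK : 1 ≤ Y ^ K := one_le_pow₀ (by linarith)
  have h6 : ((TriplesT κ Z a S).ncard : ℝ) ≤
      ((Triples (κ / 2) Z a S).ncard : ℝ) + ((N₀ + 1) ^ 3 : ℕ) := by exact_mod_cast hnat
  have h7 : (0 : ℝ) ≤ (((N₀ + 1) ^ 3 : ℕ) : ℝ) := Nat.cast_nonneg _
  calc ((TriplesT κ Z a S).ncard : ℝ) ≤ _ := h6
    _ ≤ Y ^ K + ((N₀ + 1) ^ 3 : ℕ) * Y ^ K := by
      refine add_le_add f2 ?_
      exact le_mul_of_one_le_right h7 hYK
    _ = ((1 + (N₀ + 1) ^ 3 : ℕ) : ℝ) * Y ^ K := by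
      push_cast
      ring
    _ ≤ Y ^ t * Y ^ K := by
      refine mul_le_mul_of_nonneg_right (ht.le.trans ?_) (by linarith)
      exact pow_le_pow_left₀ (by linarith) hY1 t
    _ = Y ^ (K + t) := by
      rw [← pow_add, add_comm]

theorem top_finite (κ : ℝ) (hκ0 : 0 < κ) (hκ1 : κ ≤ 1) (a : ℕ) (ha : 1 ≤ a) (S : Finset ℕ)
    (hS : ∀ p ∈ S, p.Prime) :
    {v : ℕ × ℕ × ℕ | v.1 + v.2.1 = v.2.2 ∧ ∃ b c m n k : ℕ, 1 ≤ b ∧ 1 ≤ c ∧ 1 ≤ m ∧ 1 ≤ n ∧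
      1 < κ * k ∧ Nat.Coprime a b ∧ Nat.Coprime a c ∧ Nat.Coprime b c ∧
      ((b ^ n : ℕ) : ℝ) ≤ (sPart S (b ^ n) : ℝ) * (v.2.2 : ℝ) ^ (1 - κ) ∧
      ({v.1, v.2.1, v.2.2} : Multiset ℕ) = {a ^ m, b ^ n, c ^ k}}.Finite := by
  obtain ⟨Z, K, hZ⟩ := top_main κ hκ0 hκ1 S.card
  have hlarge := (hZ a (2 + ∑ p ∈ S, p) S ha (by omega) (fun p hp => ⟨hS p hp,
    (Finset.single_le_sum (f := fun p => p) (fun _ _ => Nat.zero_le _) hp).trans
      (Nat.le_add_left _ _)⟩) le_rfl).1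
  have hsmall : ∀ k : ℕ, ∃ W : ℕ, 1 < κ * k → ∀ (c m y : ℕ) (s σ : ℤ), 0 < c → 0 < y →
      (s = 1 ∨ s = -1) → (σ = 1 ∨ σ = -1) → Nat.Coprime c a →
      (y : ℝ) ≤ (sPart S y : ℝ) * ((2 * max (a ^ m) (c ^ k) : ℕ) : ℝ) ^ (1 - κ) →
      (c : ℤ) ^ k - s * (a : ℤ) ^ m = σ * y → c ^ k ≤ W ∧ a ^ m ≤ W := by
    intro k
    by_cases hk : 1 < κ * k
    · obtain ⟨W, hW⟩ := bound_k2 hκ1 hk ha hS
      exact ⟨W, fun _ => hW⟩
    · exact ⟨0, fun h => absurd h hk⟩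
  choose W hW using hsmall
  set W' := ∑ k ∈ Finset.range Z, W k with hW'
  have hfin : ((Finset.range (2 * W' + 1) ×ˢ Finset.range (2 * W' + 1) ×ˢ
      Finset.range (2 * W' + 1) : Finset (ℕ × ℕ × ℕ)) : Set (ℕ × ℕ × ℕ)).Finite :=
    Finset.finite_toSet _
  refine (hlarge.union hfin).subset ?_
  rintro ⟨x, y, z⟩ ⟨hsum, b, c, m, n, k, hb, hc, hm, hn, hk, hab, hac, hbc, hpart, hmul⟩
  by_cases hkZ : Z ≤ k
  · left
    exact ⟨hsum, b, c, m, n, k, hb, hc, hm, hn, hkZ, hab, hac, hbc, hpart, hmul⟩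
  · right
    rw [not_le] at hkZ
    simp only at hsum hmul hpart
    have hz := top_le hsum hmul
    have hpart2 : ((b ^ n : ℕ) : ℝ) ≤ (sPart S (b ^ n) : ℝ) *
        ((2 * max (a ^ m) (c ^ k) : ℕ) : ℝ) ^ (1 - κ) := by
      refine hpart.trans (mul_le_mul_of_nonneg_left ?_ (Nat.cast_nonneg _))
      exact Real.rpow_le_rpow (Nat.cast_nonneg _) (by exact_mod_cast hz) (by linarith)
    have hWk : W k ≤ W' :=
      Finset.single_le_sum (f := W) (fun _ _ => Nat.zero_le _) (Finset.mem_range.2 hkZ)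
    have key : ∀ s σ : ℤ, (s = 1 ∨ s = -1) → (σ = 1 ∨ σ = -1) →
        (c : ℤ) ^ k - s * (a : ℤ) ^ m = σ * (b : ℤ) ^ n →
        c ^ k ≤ W' ∧ a ^ m ≤ W' := fun s σ hs hσ h => by
      obtain ⟨h1, h2⟩ := hW k hk c m (b ^ n) s σ hc (pow_pos hb n) hs hσ hac.symm hpart2
        (by rw [h]; push_cast; rfl)
      exact ⟨h1.trans hWk, h2.trans hWk⟩
    have fin : z ≤ 2 * W' → (x, y, z) ∈ ((Finset.range (2 * W' + 1) ×ˢ
        Finset.range (2 * W' + 1) ×ˢ Finset.range (2 * W' + 1) : Finset (ℕ × ℕ × ℕ)) :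
        Set (ℕ × ℕ × ℕ)) := by
      intro h
      simp only [Finset.coe_product, Finset.coe_range, Set.mem_prod, Set.mem_Iio]
      exact ⟨by omega, by omega, by omega⟩
    rcases perm3 hmul with ⟨h1, h2, h3⟩ | ⟨h1, h2, h3⟩ | ⟨h1, h2, h3⟩ | ⟨h1, h2, h3⟩ |
        ⟨h1, h2, h3⟩ | ⟨h1, h2, h3⟩
    · have h4 : a ^ m + b ^ n = c ^ k := by rw [← h1, ← h2, ← h3]; exact hsum
      have h5 : (a : ℤ) ^ m + (b : ℤ) ^ n = (c : ℤ) ^ k := by exact_mod_cast h4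
      obtain ⟨h6, h7⟩ := key 1 1 (Or.inl rfl) (Or.inl rfl) (by linarith)
      exact fin (by omega)
    · have h4 : a ^ m + c ^ k = b ^ n := by rw [← h1, ← h2, ← h3]; exact hsum
      have h5 : (a : ℤ) ^ m + (c : ℤ) ^ k = (b : ℤ) ^ n := by exact_mod_cast h4
      obtain ⟨h6, h7⟩ := key (-1) 1 (Or.inr rfl) (Or.inl rfl) (by linarith)
      exact fin (by omega)
    · have h4 : b ^ n + a ^ m = c ^ k := by rw [← h1, ← h2, ← h3]; exact hsum
      have h5 : (b : ℤ) ^ n + (a : ℤ) ^ m = (c : ℤ) ^ k := by exact_mod_cast h4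
      obtain ⟨h6, h7⟩ := key 1 1 (Or.inl rfl) (Or.inl rfl) (by linarith)
      exact fin (by omega)
    · have h4 : b ^ n + c ^ k = a ^ m := by rw [← h1, ← h2, ← h3]; exact hsum
      have h5 : (b : ℤ) ^ n + (c : ℤ) ^ k = (a : ℤ) ^ m := by exact_mod_cast h4
      obtain ⟨h6, h7⟩ := key 1 (-1) (Or.inl rfl) (Or.inr rfl) (by linarith)
      exact fin (by omega)
    · have h4 : c ^ k + a ^ m = b ^ n := by rw [← h1, ← h2, ← h3]; exact hsum
      have h5 : (c : ℤ) ^ k + (a : ℤ) ^ m = (b : ℤ) ^ n := by exact_mod_cast h4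
      obtain ⟨h6, h7⟩ := key (-1) 1 (Or.inr rfl) (Or.inl rfl) (by linarith)
      exact fin (by omega)
    · have h4 : c ^ k + b ^ n = a ^ m := by rw [← h1, ← h2, ← h3]; exact hsum
      have h5 : (c : ℤ) ^ k + (b : ℤ) ^ n = (a : ℤ) ^ m := by exact_mod_cast h4
      obtain ⟨h6, h7⟩ := key 1 (-1) (Or.inl rfl) (Or.inr rfl) (by linarith)
      exact fin (by omega)

end Pool.Agent.K1H94.Q
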